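import Pool.Agent.Helper84.CB.LineQ
import Pool.Agent.Helper69.EK5.Fin
set_option autoImplicit false
open Complex MeasureTheory Metric Set
open scoped Real ComplexConjugate

/-!
# The condition on the centre line for a function of `X`
-/

namespace Pool.Agent.Helper84.CB

open Pool.Agent.Helper39.Area Pool.Agent.Helper52.EK Pool.Agent.Helper69.EK3

/-- the centre condition for a function `E` of `X` -/
def CenE (E : ℂ → ℝ) : Prop :=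
  ∃ (Q : ℂ → ℂ → ℂ → ℝ) (Wc : ℂ → ℂ → ℝ),
    (∀ X q b : ℂ, RegQ X q b → 0 ≤ Q X q b) ∧
    (LocallyLipschitz fun p : ℂ × ℂ × ℂ => Q p.1 p.2.1 p.2.2) ∧
    (Continuous fun p : ℂ × ℂ => Wc p.1 p.2) ∧
    ∀ (x q : ℝ → ℂ) (b : ℂ) (ξ : ℝ), HasDerivAt x (x ξ * q ξ) ξ →
      HasDerivAt q ((3 * b - 1 + x ξ ^ 2) / 2 - q ξ ^ 2 / 4) ξ →
      HasDerivAt (fun t : ℝ => Wc (x t) (q t)) (E (x ξ) - Q (x ξ) (q ξ) b) ξ

/-- a `C¹` function of a complex variable -/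
theorem C1f.contDiff {W Wx Wy : ℂ → ℝ} (h : C1f W Wx Wy) : ContDiff ℝ 1 W := by
  rw [contDiff_one_iff_hasFDerivAt]
  exact ⟨fun X => Wx X • reCLM + Wy X • imCLM,
    (h.cx.smul continuous_const).add (h.cy.smul continuous_const), h.hd⟩

theorem ll_of {Q : ℂ → ℂ → ℂ → ℝ} (h : ContDiff ℝ 1 fun p : ℂ × ℂ × ℂ => Q p.1 p.2.1 p.2.2) :
    LocallyLipschitz fun p : ℂ × ℂ × ℂ => Q p.1 p.2.1 p.2.2 := h.locallyLipschitz

theorem ll_add {Q Q' : ℂ → ℂ → ℂ → ℝ} (h : LocallyLipschitz fun p : ℂ × ℂ × ℂ => Q p.1 p.2.1 p.2.2)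
    (h' : LocallyLipschitz fun p : ℂ × ℂ × ℂ => Q' p.1 p.2.1 p.2.2) :
    LocallyLipschitz fun p : ℂ × ℂ × ℂ => Q p.1 p.2.1 p.2.2 + Q' p.1 p.2.1 p.2.2 := by
  intro x
  obtain ⟨K, t, ht, hK⟩ := h x
  obtain ⟨K', t', ht', hK'⟩ := h' x
  refine ⟨K + K', t ∩ t', Filter.inter_mem ht ht', ?_⟩
  exact (hK.mono inter_subset_left).add (hK'.mono inter_subset_right)

/-- adding a function which is nonnegative on the unit disc -/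
theorem CenE.add {E₀ E F Fx Fy : ℂ → ℝ} (h : CenE E₀) (hF : C1f F Fx Fy)
    (hE : ∀ X, E X = E₀ X + F X) (hp : ∀ X : ℂ, ‖X‖ ≤ 1 → 0 ≤ F X) : CenE E := by
  obtain ⟨Q, Wc, h1, h2, h3, h4⟩ := h
  refine ⟨fun X q b => Q X q b + F X, Wc, fun X q b hR => add_nonneg (h1 X q b hR)
    (hp X hR.le), ?_, h3, fun x q b ξ hx hq => ?_⟩
  · refine ll_add h2 (Q' := fun X _ _ => F X) ?_
    have h5 : ContDiff ℝ 1 fun p : ℂ × ℂ × ℂ => F p.1 := (C1f.contDiff hF).comp contDiff_fst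
    exact h5.locallyLipschitz
  · refine (h4 x q b ξ hx hq).congr_deriv ?_
    rw [hE]
    ring

/-- functions which are nonnegative on the unit disc -/
theorem CenE.of_pos {E Ex Ey : ℂ → ℝ} (hE : C1f E Ex Ey) (hp : ∀ X : ℂ, ‖X‖ ≤ 1 → 0 ≤ E X) :
    CenE E := by
  have h5 : ContDiff ℝ 1 fun p : ℂ × ℂ × ℂ => E p.1 := (C1f.contDiff hE).comp contDiff_fst
  refine ⟨fun X _ _ => E X, fun _ _ => 0, fun X q b hR => hp X hR.le,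
    h5.locallyLipschitz, continuous_const, fun x q b ξ _ _ => ?_⟩
  rw [sub_self]
  exact hasDerivAt_const _ _

theorem CenE.const_mul {E : ℂ → ℝ} (h : CenE E) {c : ℝ} (hc : 0 ≤ c) : CenE fun X => c * E X := by
  obtain ⟨Q, Wc, h1, h2, h3, h4⟩ := h
  refine ⟨fun X q b => c * Q X q b, fun X q => c * Wc X q, fun X q b hR =>
    mul_nonneg hc (h1 X q b hR), ?_, continuous_const.mul h3, fun x q b ξ hx hq => ?_⟩
  · intro x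
    obtain ⟨K, t, ht, hK⟩ := h2 x
    refine ⟨‖c‖₊ * K, t, ht, ?_⟩
    intro u hu v hv
    have h5 := hK hu hv
    have e : edist (c * Q u.1 u.2.1 u.2.2) (c * Q v.1 v.2.1 v.2.2) =
        (‖c‖₊ : ENNReal) * edist (Q u.1 u.2.1 u.2.2) (Q v.1 v.2.1 v.2.2) := by
      rw [← smul_eq_mul, ← smul_eq_mul, edist_smul₀]
      rfl
    simp only
    rw [e]
    calc (‖c‖₊ : ENNReal) * edist (Q u.1 u.2.1 u.2.2) (Q v.1 v.2.1 v.2.2) ≤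
          (‖c‖₊ : ENNReal) * (K * edist u v) := by gcongr
      _ = _ := by rw [ENNReal.coe_mul, mul_assoc]
  · refine ((h4 x q b ξ hx hq).const_mul c).congr_deriv ?_
    ring

theorem CenE.congr {E E' : ℂ → ℝ} (h : CenE E) (he : ∀ X, E X = E' X) : CenE E' := by
  have : E = E' := funext he
  rwa [← this]

/-- the first order centre terms -/
theorem CenE.cenD {E : ℂ → ℝ} (h : CenE E) {K : ℂ → ℂ → ℝ}
    (hK : ∀ X Y : ℂ, X ≠ 0 → K X Y + K (conj X) (conj Y) = - E X) :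
    ∃ (Q : ℂ → ℂ → ℂ → ℝ) (Wc : ℂ → ℂ → ℝ), CenD K Q Wc := by
  obtain ⟨Q, Wc, h1, h2, h3, h4⟩ := h
  refine ⟨Q, Wc, h1, h2, h3, fun x q b ξ hx0 hx hq => ?_⟩
  rw [hK _ _ hx0, neg_neg]
  exact h4 x q b ξ hx hq

/-- the first order centre terms, with a derivative along the line -/
theorem CenE.cenD' {E W Wx Wy : ℂ → ℝ} (h : CenE E) (hW : C1f W Wx Wy) {K : ℂ → ℂ → ℝ}
    (hK : ∀ X Y : ℂ, X ≠ 0 → K X Y + K (conj X) (conj Y) =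
      - E X + (Wx X * Y.re + Wy X * Y.im)) :
    ∃ (Q : ℂ → ℂ → ℂ → ℝ) (Wc : ℂ → ℂ → ℝ), CenD K Q Wc := by
  obtain ⟨Q, Wc, h1, h2, h3, h4⟩ := h
  have cW : Continuous W := (C1f.contDiff hW).continuous
  refine ⟨Q, fun X q => Wc X q - W X, h1, h2, h3.sub (cW.comp continuous_fst),
    fun x q b ξ hx0 hx hq => ?_⟩
  have h5 : HasDerivAt (fun t => W (x t)) (Wx (x ξ) * (x ξ * q ξ).re +
      Wy (x ξ) * (x ξ * q ξ).im) ξ := by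
    have := (hW.hd (x ξ)).comp_hasDerivAt ξ hx
    refine this.congr_deriv ?_
    simp
  refine ((h4 x q b ξ hx hq).sub h5).congr_deriv ?_
  rw [hK _ _ hx0]
  ring

/-! ### the plain strip -/

/-- the core inequality from the pointwise inequality -/
theorem coreI_of {P : (ℂ → ℂ) → ℝ → ℝ → Prop} {k₂ lam D : ℝ} (hlam : 0 ≤ lam) (hk₂ : lam ≤ k₂)
    {T : ℂ → ℂ → ℝ → ℝ → ℝ} (hT0 : ∀ (X Y : ℂ) (s c : ℝ), 0 ≤ T X Y s c)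
    (hTc : ContinuousOn (fun p : ℂ × ℂ × ℝ × ℝ => T p.1 p.2.1 p.2.2.1 p.2.2.2) {p | p.1 ≠ 0})
    (hTm : ∀ (X Y : ℂ) (s c : ℝ), T (conj X) (conj Y) s c = T X Y s (-c))
    {N : ℂ → ℂ → ℝ → ℝ} {K : ℂ → ℂ → ℝ} (hN : IsNull P N K)
    (hp : ∀ (X : ℂ → ℂ) (x₁ x₂ : ℝ), x₁ ≤ x₂ → NiceH X x₁ x₂ → P X x₁ x₂ →
      ∃ ε : ℝ → ℝ, Continuous ε ∧ (∀ ξ, 0 ≤ ε ξ) ∧ ∫ ξ in x₁..x₂, ε ξ ≤ D ∧
        ∀ ξ ∈ Icc x₁ x₂, ∀ η ∈ Icc (0:ℝ) (π / 2),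
          T (X (pt ξ η)) (deriv X (pt ξ η)) (Real.sin η) (Real.cos η) ≤
            k₂ * (1 - (X (pt ξ η)).re) + lam * (‖X (pt ξ η)‖ ^ 2 - (X (pt ξ η)).re) +
              N (X (pt ξ η)) (deriv X (pt ξ η)) η + ε ξ) :
    CoreI k₂ lam T K fun X x₁ x₂ => P X x₁ x₂ ∧ P (mir X) x₁ x₂ := by
  obtain ⟨k, C, hk, hC⟩ := strip3_core hlam hk₂ hT0 hTc hTm hN hp
  exact ⟨k, C, hk, fun X x₁ x₂ l hl hx hX hA => hC X x₁ x₂ l hl hx hX hA.1 hA.2⟩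

/-- **The bound for one target from a certificate with the area inequality on the centre line** -/
theorem K_one3_c {P : (ℂ → ℂ) → ℝ → ℝ → Prop}
    (hP : ∀ (β : ℂ → ℂ) (R a : ℝ), ExtR β R → 0 < a → a < 1 → Real.log (tau a) + 1 ≤ -1 →
      P (Xf β a) (Real.log (tau a) + 1) (-1) ∧ P (mir (Xf β a)) (Real.log (tau a) + 1) (-1))
    {k₂ lam D κ L : ℝ} (hlam : 0 ≤ lam) (hk₂ : lam ≤ k₂) (hκ : k₂ < 2 * κ)
    {G : ℂ → ℂ} (hG : GLip G L) (hGc : ∀ m, G (conj m) = conj (G m))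
    {Nl : ℂ → ℂ → ℝ → ℝ} {Kl : ℂ → ℂ → ℝ} (hN : IsNull P Nl Kl)
    (hp : ∀ (X : ℂ → ℂ) (x₁ x₂ : ℝ), x₁ ≤ x₂ → NiceH X x₁ x₂ → P X x₁ x₂ →
      ∃ ε : ℝ → ℝ, Continuous ε ∧ (∀ ξ, 0 ≤ ε ξ) ∧ ∫ ξ in x₁..x₂, ε ξ ≤ D ∧
        ∀ ξ ∈ Icc x₁ x₂, ∀ η ∈ Icc (0:ℝ) (π / 2),
          TG G (X (pt ξ η)) (deriv X (pt ξ η)) (Real.sin η) (Real.cos η) ≤
            k₂ * (1 - (X (pt ξ η)).re) + lam * (‖X (pt ξ η)‖ ^ 2 - (X (pt ξ η)).re) +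
              Nl (X (pt ξ η)) (deriv X (pt ξ η)) η + ε ξ)
    {Q : ℂ → ℂ → ℂ → ℝ} {Wc : ℂ → ℂ → ℝ} (hQ : CenD Kl Q Wc) :
    ∃ C a₀ : ℝ, a₀ < 1 ∧ ∀ (β : ℂ → ℂ) (R a : ℝ), ExtR β R → a₀ < a → a < 1 →
      Kf (wf G β) 1 (-1) (Real.log a) ≤ κ * Real.log (‖N β a‖ / (1 - a ^ 2)) + C :=
  K_q hG hN.cK hP (coreI_of hlam hk₂ (fun _ _ _ _ => sq_nonneg _)
    (TG_cont (Pool.Agent.Helper44.EK.GLip.continuous hG)) (TG_mirror hGc) hN hp) hQ hlam hk₂ hκ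

/-- the same with multipliers for the bounds of Koebe and Bieberbach -/
theorem K_one3_cd {k₂ lam κ L M : ℝ} (hM : 0 ≤ M) (hlam : 0 ≤ lam) (hk₂ : lam ≤ k₂)
    (hκ : k₂ < 2 * κ) {G : ℂ → ℂ} (hG : GLip G L) (hGc : ∀ m, G (conj m) = conj (G m))
    {Nl : ℂ → ℂ → ℝ → ℝ} {Kl : ℂ → ℂ → ℝ} (hN : IsNull DiscP Nl Kl)
    (hp : ∀ X Y : ℂ, X ≠ 0 → ∀ η ∈ Icc (0:ℝ) (π / 2), ∃ l₀ l₁ l₂ : ℝ,
      0 ≤ l₀ ∧ l₀ ≤ M ∧ 0 ≤ l₁ ∧ l₁ ≤ M ∧ 0 ≤ l₂ ∧ l₂ ≤ M ∧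
      TG G X Y (Real.sin η) (Real.cos η) + l₀ * (1 - (Real.sin η * ‖X‖) ^ 2) +
        l₁ * (16 - ‖dA 1 X Y (Real.sin η) (Real.cos η)‖ ^ 2) +
        l₂ * (16 - ‖dA (-1) X Y (Real.sin η) (Real.cos η)‖ ^ 2) ≤
      k₂ * (1 - X.re) + lam * (‖X‖ ^ 2 - X.re) + Nl X Y η)
    {Q : ℂ → ℂ → ℂ → ℝ} {Wc : ℂ → ℂ → ℝ} (hQ : CenD Kl Q Wc) :
    ∃ C a₀ : ℝ, a₀ < 1 ∧ ∀ (β : ℂ → ℂ) (R a : ℝ), ExtR β R → a₀ < a → a < 1 →
      Kf (wf G β) 1 (-1) (Real.log a) ≤ κ * Real.log (‖N β a‖ / (1 - a ^ 2)) + C := by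
  refine K_one3_c (P := DiscP) discP_Xf hlam hk₂ hκ hG hGc hN (D := 330 * M * 8) ?_ hQ
  intro X x₁ x₂ hx hX hP
  obtain ⟨δ, h1, h2, h3, h4, h5⟩ := hP
  refine ⟨fun ξ => 330 * M * δ ξ, by fun_prop, fun ξ => by have := h2 ξ; positivity, ?_, ?_⟩
  · rw [intervalIntegral.integral_const_mul]
    exact mul_le_mul_of_nonneg_left h4 (by positivity)
  · intro ξ hξ η hη
    have hne := hX.ne _ (pt_mem_RectH hξ hη)
    have hs : 0 ≤ Real.sin η := Real.sin_nonneg_of_nonneg_of_le_pi hη.1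
      (hη.2.trans (by linarith [Real.pi_pos]))
    obtain ⟨l₀, l₁, l₂, a1, a2, b1, b2, c1, c2, hl⟩ := hp _ (deriv X (pt ξ η)) hne η hη
    obtain ⟨k1, k2, k3⟩ := h5 ξ hξ η hη
    have hd0 := h2 ξ
    have hd8 := h3 ξ hξ
    set d := δ ξ with hd
    have s1 : (Real.sin η * ‖X (pt ξ η)‖) ^ 2 ≤ 1 + 10 * d := by
      have := pow_le_pow_left₀ (mul_nonneg hs (norm_nonneg _)) k1 2
      nlinarith
    have s2 : ‖dA 1 (X (pt ξ η)) (deriv X (pt ξ η)) (Real.sin η) (Real.cos η)‖ ^ 2 ≤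
        16 + 160 * d := by
      have := pow_le_pow_left₀ (norm_nonneg _) k2 2
      nlinarith
    have s3 : ‖dA (-1) (X (pt ξ η)) (deriv X (pt ξ η)) (Real.sin η) (Real.cos η)‖ ^ 2 ≤
        16 + 160 * d := by
      have := pow_le_pow_left₀ (norm_nonneg _) k3 2
      nlinarith
    have m1 : l₀ * ((Real.sin η * ‖X (pt ξ η)‖) ^ 2 - 1) ≤ M * (10 * d) :=
      (mul_le_mul_of_nonneg_left (by linarith : _ ≤ 10 * d) a1).trans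
        (mul_le_mul_of_nonneg_right a2 (by positivity))
    have m2 : l₁ * (‖dA 1 (X (pt ξ η)) (deriv X (pt ξ η)) (Real.sin η) (Real.cos η)‖ ^ 2 - 16) ≤
        M * (160 * d) :=
      (mul_le_mul_of_nonneg_left (by linarith : _ ≤ 160 * d) b1).trans
        (mul_le_mul_of_nonneg_right b2 (by positivity))
    have m3 : l₂ * (‖dA (-1) (X (pt ξ η)) (deriv X (pt ξ η)) (Real.sin η) (Real.cos η)‖ ^ 2 - 16) ≤
        M * (160 * d) :=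
      (mul_le_mul_of_nonneg_left (by linarith : _ ≤ 160 * d) c1).trans
        (mul_le_mul_of_nonneg_right c2 (by positivity))
    linarith

end Pool.Agent.Helper84.CB
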