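import Pool.Agent.Helper84.CB.CenE
import Pool.Agent.Helper69.EK6.Fin
set_option autoImplicit false
open Complex MeasureTheory Metric Set
open scoped Real ComplexConjugate

/-!
# The condition on the centre line from integer data
-/

namespace Pool.Agent.Helper84.CB

open Pool.Sos71
open Pool.EK71 Pool.Agent.Helper52.EK Pool.Agent.Helper2.EK
open Pool.Agent.Helper69.EK3 hiding qX qY qL Rr c1_Rr c2_Rr Rr_le Dn Dn_ev Rr_conj_even Rr_conj_odd Rs dEta_conj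
open Pool.Agent.Helper69.EK5 (DQ Dd Dd_pos Dd_low DL e_D qX qY qL Rr c1_Rr c2_Rr Rr_le Dn Dn_ev)

/-- the point of the centre line: the variables are `Re b, Im b, 0, Re q, Im q, Re X - 1, Im X`
(in the second form `X b`, `X q` for `b`, `q`) -/
noncomputable def pc (X q b : ℂ) : Pnt := ⟨b.re, b.im, 0, q.re, q.im, X.re - 1, X.im⟩

/-- the polynomial inequalities of the region in the variables `(X, q, b)` -/
structure PReg (x : Pnt) : Prop where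
  r0 : (1 + x.f) ^ 2 + x.g ^ 2 ≤ 1
  r1 : 2 * ((1 + x.f) ^ 2 + x.g ^ 2) * (x.d ^ 2 + x.e ^ 2 + 2 * (x.a ^ 2 + x.b ^ 2)) ≤
    1 - ((1 + x.f) ^ 2 + x.g ^ 2) ^ 2
  r2 : 2 * ((1 + x.f) ^ 2 + x.g ^ 2) * (2 + ((1 + x.f) ^ 2 + x.g ^ 2)) *
    (x.d ^ 2 + x.e ^ 2 + 2 * (x.a ^ 2 + x.b ^ 2)) ≤
    (1 - ((1 + x.f) ^ 2 + x.g ^ 2)) * (1 + 5 * ((1 + x.f) ^ 2 + x.g ^ 2))
  r3 : (x.d + 2 * (1 + x.f)) ^ 2 + (x.e + 2 * x.g) ^ 2 ≤ 4
  r4 : (x.d - 2 * (1 + x.f)) ^ 2 + (x.e - 2 * x.g) ^ 2 ≤ 4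
  r5 : (x.a - ((1 + x.f) ^ 2 - x.g ^ 2) - (x.d ^ 2 - x.e ^ 2) / 2) ^ 2 +
    (x.b - 2 * (1 + x.f) * x.g - x.d * x.e) ^ 2 ≤ 1

/-- the polynomial inequalities of the region in the variables `(X, X', X b)` -/
structure PRegY (x : Pnt) : Prop where
  r0 : (1 + x.f) ^ 2 + x.g ^ 2 ≤ 1
  r1 : 2 * (x.d ^ 2 + x.e ^ 2 + 2 * (x.a ^ 2 + x.b ^ 2)) ≤ 1 - ((1 + x.f) ^ 2 + x.g ^ 2) ^ 2
  r2 : 2 * (2 + ((1 + x.f) ^ 2 + x.g ^ 2)) * (x.d ^ 2 + x.e ^ 2 + 2 * (x.a ^ 2 + x.b ^ 2)) ≤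
    (1 - ((1 + x.f) ^ 2 + x.g ^ 2)) * (1 + 5 * ((1 + x.f) ^ 2 + x.g ^ 2))
  r3 : (x.d + 2 * ((1 + x.f) ^ 2 - x.g ^ 2)) ^ 2 + (x.e + 4 * (1 + x.f) * x.g) ^ 2 ≤
    4 * ((1 + x.f) ^ 2 + x.g ^ 2)
  r4 : (x.d - 2 * ((1 + x.f) ^ 2 - x.g ^ 2)) ^ 2 + (x.e - 4 * (1 + x.f) * x.g) ^ 2 ≤
    4 * ((1 + x.f) ^ 2 + x.g ^ 2)
  r5 : ((1 + x.f) * x.a - x.g * x.b - (((1 + x.f) ^ 2 - x.g ^ 2) ^ 2 -
      (2 * (1 + x.f) * x.g) ^ 2) - (x.d ^ 2 - x.e ^ 2) / 2) ^ 2 +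
    ((1 + x.f) * x.b + x.g * x.a - 2 * ((1 + x.f) ^ 2 - x.g ^ 2) * (2 * (1 + x.f) * x.g) -
      x.d * x.e) ^ 2 ≤ ((1 + x.f) ^ 2 + x.g ^ 2) ^ 2

theorem RegQ.preg {X q b : ℂ} (h : RegQ X q b) : PReg (pc X q b) := by
  have hX : ‖X‖ ^ 2 = (1 + (X.re - 1)) ^ 2 + X.im ^ 2 := by
    rw [nq_sq]
    ring
  have hX4 : ‖X‖ ^ 4 = ((1 + (X.re - 1)) ^ 2 + X.im ^ 2) ^ 2 := by
    rw [← hX]
    ring
  have hq : ‖q‖ ^ 2 = q.re ^ 2 + q.im ^ 2 := nq_sq q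
  have hb : ‖b‖ ^ 2 = b.re ^ 2 + b.im ^ 2 := nq_sq b
  refine ⟨?_, ?_, ?_, ?_, ?_, ?_⟩ <;> simp only [pc]
  · rw [← hX]
    exact pow_le_one₀ (norm_nonneg _) h.le
  · have := h.two
    rw [hX4, hX, hq, hb] at this
    exact this
  · have := h.pade
    rw [hX, hq, hb] at this
    exact this
  · have h1 := pow_le_pow_left₀ (norm_nonneg _) h.b1 2
    rw [nq_sq] at h1
    simp only [add_re, add_im, mul_re, mul_im, re_ofNat, im_ofNat] at h1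
    refine le_trans (le_of_eq ?_) (h1.trans (le_of_eq (by norm_num)))
    ring
  · have h1 := pow_le_pow_left₀ (norm_nonneg _) h.b2 2
    rw [nq_sq] at h1
    simp only [sub_re, sub_im, mul_re, mul_im, re_ofNat, im_ofNat] at h1
    refine le_trans (le_of_eq ?_) (h1.trans (le_of_eq (by norm_num)))
    ring
  · have h1 := pow_le_pow_left₀ (norm_nonneg _) h.kr 2
    have e : b - X ^ 2 - q ^ 2 / 2 = b - X * X - (1 / 2 : ℝ) * (q * q) := by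
      push_cast
      ring
    rw [e, nq_sq] at h1
    simp only [sub_re, sub_im, mul_re, mul_im, ofReal_re, ofReal_im] at h1
    refine le_trans (le_of_eq ?_) (h1.trans (le_of_eq (by norm_num)))
    ring

theorem RegQ.pregY {X q b : ℂ} (h : RegQ X q b) : PRegY (pc X (X * q) (X * b)) := by
  have hX : ‖X‖ ^ 2 = (1 + (X.re - 1)) ^ 2 + X.im ^ 2 := by
    rw [nq_sq]
    ring
  have hX4 : ‖X‖ ^ 4 = ((1 + (X.re - 1)) ^ 2 + X.im ^ 2) ^ 2 := by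
    rw [← hX]
    ring
  have hq : ‖X‖ ^ 2 * ‖q‖ ^ 2 = (X * q).re ^ 2 + (X * q).im ^ 2 := by
    rw [← nq_sq, norm_mul]
    ring
  have hb : ‖X‖ ^ 2 * ‖b‖ ^ 2 = (X * b).re ^ 2 + (X * b).im ^ 2 := by
    rw [← nq_sq, norm_mul]
    ring
  have hX0 := norm_nonneg X
  refine ⟨?_, ?_, ?_, ?_, ?_, ?_⟩ <;> simp only [pc]
  · rw [← hX]
    exact pow_le_one₀ (norm_nonneg _) h.le
  · have := h.two
    rw [← hX4, ← hq, ← hb]
    linarith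
  · have := h.pade
    rw [← hX, ← hq, ← hb]
    linarith
  · have h1 := pow_le_pow_left₀ (norm_nonneg _) h.b1 2
    have h2 := mul_le_mul_of_nonneg_left h1 (sq_nonneg ‖X‖)
    rw [← mul_pow, ← norm_mul, nq_sq, hX] at h2
    refine le_trans (le_of_eq ?_) (h2.trans (le_of_eq (by ring)))
    simp only [add_re, add_im, mul_re, mul_im, re_ofNat, im_ofNat]
    ring
  · have h1 := pow_le_pow_left₀ (norm_nonneg _) h.b2 2
    have h2 := mul_le_mul_of_nonneg_left h1 (sq_nonneg ‖X‖)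
    rw [← mul_pow, ← norm_mul, nq_sq, hX] at h2
    refine le_trans (le_of_eq ?_) (h2.trans (le_of_eq (by ring)))
    simp only [sub_re, sub_im, mul_re, mul_im, re_ofNat, im_ofNat]
    ring
  · have h1 := pow_le_pow_left₀ (norm_nonneg _) h.kr 2
    have h2 := mul_le_mul_of_nonneg_left h1 (sq_nonneg (‖X‖ ^ 2))
    have e : X * X * (b - X ^ 2 - q ^ 2 / 2) = X * (X * b) - (X * X) * (X * X) -
        (1 / 2 : ℝ) * ((X * q) * (X * q)) := by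
      push_cast
      ring
    have e2 : ‖X‖ ^ 2 = ‖X * X‖ := by rw [norm_mul]; ring
    rw [← mul_pow, one_pow, mul_one] at h2
    nth_rewrite 1 [e2] at h2
    rw [← norm_mul, e, nq_sq, hX] at h2
    refine le_trans (le_of_eq ?_) h2
    simp only [sub_re, sub_im, mul_re, mul_im, ofReal_re, ofReal_im]
    ring

/-! ### the general statement -/

/-- a function of `(X, q)` with its derivative along the line, times `4 D ^ n` an expression -/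
structure WOk (a : DQ) (n : ℕ) (W : ℂ → ℂ → ℝ) (dW T : ℂ → ℂ → ℂ → ℝ) : Prop where
  cW : Continuous fun p : ℂ × ℂ => W p.1 p.2
  cd : ContDiff ℝ 1 fun p : ℂ × ℂ × ℂ => dW p.1 p.2.1 p.2.2
  hd : ∀ (x q : ℝ → ℂ) (b : ℂ) (ξ : ℝ), HasDerivAt x (x ξ * q ξ) ξ →
    HasDerivAt q ((3 * b - 1 + x ξ ^ 2) / 2 - q ξ ^ 2 / 4) ξ →
    HasDerivAt (fun t : ℝ => W (x t) (q t)) (dW (x ξ) (q ξ) b) ξ
  ev : ∀ X q b : ℂ, T X q b = 4 * Dd a X.re X.im ^ n * dW X q b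

theorem WOk.zero (a : DQ) (n : ℕ) : WOk a n (fun _ _ => 0) (fun _ _ _ => 0) (fun _ _ _ => 0) :=
  ⟨continuous_const, contDiff_const, fun _ _ _ _ _ _ => hasDerivAt_const _ _, fun _ _ _ => by simp⟩

theorem WOk.add {a : DQ} {n : ℕ} {W W' : ℂ → ℂ → ℝ} {dW dW' T T' : ℂ → ℂ → ℂ → ℝ}
    (h : WOk a n W dW T) (h' : WOk a n W' dW' T') :
    WOk a n (fun X q => W X q + W' X q) (fun X q b => dW X q b + dW' X q b)
      (fun X q b => T X q b + T' X q b) :=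
  ⟨h.cW.add h'.cW, h.cd.add h'.cd, fun x q b ξ hx hq => (h.hd x q b ξ hx hq).add
    (h'.hd x q b ξ hx hq), fun X q b => by rw [h.ev, h'.ev]; ring⟩

theorem WOk.list {a : DQ} {n : ℕ} {ι : Type} (L : List ι) {W : ι → ℂ → ℂ → ℝ}
    {dW T : ι → ℂ → ℂ → ℂ → ℝ} (h : ∀ t ∈ L, WOk a n (W t) (dW t) (T t)) :
    WOk a n (fun X q => (L.map fun t => W t X q).sum) (fun X q b => (L.map fun t => dW t X q b).sum)
      (fun X q b => (L.map fun t => T t X q b).sum) := by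
  induction L with
  | nil => simpa using WOk.zero a n
  | cons t L ih =>
    have h1 := (h t (by simp)).add (ih fun s hs => h s (by simp [hs]))
    simpa only [List.map_cons, List.sum_cons] using h1

/-- **the centre condition from data** -/
theorem cenE_of {a : DQ} {K n : ℕ} (hKn : K ≤ n) {S : ℝ} (hS : 0 < S) {E Ex Ey : ℂ → ℝ}
    (hE : C1f E Ex Ey) {P : BP} (hP : ∀ X : ℂ, ev2 (X.re - 1) X.im P =
      S * Dd a X.re X.im ^ K * E X) {W : ℂ → ℂ → ℝ} {dW T : ℂ → ℂ → ℂ → ℝ} (hW : WOk a n W dW T)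
    (hpos : ∀ X q b : ℂ, RegQ X q b →
      0 ≤ ev2 (X.re - 1) X.im (mu2 P (Dn a (n - K))) + T X q b) : CenE E := by
  have hS' := hS.ne'
  refine ⟨fun X q b => E X + 4 / S * dW X q b, fun X q => -(4 / S * W X q), fun X q b hR => ?_,
    ?_, (continuous_const.mul hW.cW).neg, fun x q b ξ hx hq => ?_⟩
  · have h1 := hpos X q b hR
    obtain ⟨m, hm⟩ := Nat.exists_eq_add_of_le hKn
    have e2 : n - K = m := by omega
    rw [ev2_mu, hP, Dn_ev, hW.ev, e2] at h1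
    have hD : 0 < S * Dd a X.re X.im ^ n := mul_pos hS (pow_pos (Dd_pos _ _ _) _)
    refine nonneg_of_mul_nonneg_right (a := S * Dd a X.re X.im ^ n) ?_ hD
    refine h1.trans (le_of_eq ?_)
    rw [hm, pow_add]
    field_simp
  · refine ll_add (Q := fun X _ _ => E X) (Q' := fun X q b => 4 / S * dW X q b) ?_ ?_
    · have h5 : ContDiff ℝ 1 fun p : ℂ × ℂ × ℂ => E p.1 := (C1f.contDiff hE).comp contDiff_fst
      exact h5.locallyLipschitz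
    · have h5 : ContDiff ℝ 1 fun p : ℂ × ℂ × ℂ => 4 / S * dW p.1 p.2.1 p.2.2 :=
        contDiff_const.mul hW.cd
      exact h5.locallyLipschitz
  · refine ((hW.hd x q b ξ hx hq).const_mul (4 / S)).neg.congr_deriv ?_
    ring

/-! ### derivatives -/

theorem hd_C1f {R Rx Ry : ℂ → ℝ} (h : C1f R Rx Ry) {x : ℝ → ℂ} {x' : ℂ} {ξ : ℝ}
    (hx : HasDerivAt x x' ξ) :
    HasDerivAt (fun t => R (x t)) (Rx (x ξ) * x'.re + Ry (x ξ) * x'.im) ξ := by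
  refine ((h.hd (x ξ)).comp_hasDerivAt ξ hx).congr_deriv ?_
  simp

theorem hd_re {x : ℝ → ℂ} {x' : ℂ} {ξ : ℝ} (hx : HasDerivAt x x' ξ) :
    HasDerivAt (fun t => (x t).re) x'.re ξ := by
  have h := (reCLM.hasFDerivAt (x := x ξ)).comp_hasDerivAt ξ hx
  exact h

theorem hd_im {x : ℝ → ℂ} {x' : ℂ} {ξ : ℝ} (hx : HasDerivAt x x' ξ) :
    HasDerivAt (fun t => (x t).im) x'.im ξ := by
  have h := (imCLM.hasFDerivAt (x := x ξ)).comp_hasDerivAt ξ hx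
  exact h

section cd

theorem cdX : ContDiff ℝ 1 fun p : ℂ × ℂ × ℂ => p.1 := contDiff_fst
theorem cdq : ContDiff ℝ 1 fun p : ℂ × ℂ × ℂ => p.2.1 := contDiff_fst.comp contDiff_snd
theorem cdb : ContDiff ℝ 1 fun p : ℂ × ℂ × ℂ => p.2.2 := contDiff_snd.comp contDiff_snd

theorem cdre {f : ℂ × ℂ × ℂ → ℂ} (h : ContDiff ℝ 1 f) : ContDiff ℝ 1 fun p => (f p).re :=
  reCLM.contDiff.comp h
theorem cdim {f : ℂ × ℂ × ℂ → ℂ} (h : ContDiff ℝ 1 f) : ContDiff ℝ 1 fun p => (f p).im :=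
  imCLM.contDiff.comp h

theorem cdR (a : DQ) (k : ℕ) (P : BP) : ContDiff ℝ 1 fun p : ℂ × ℂ × ℂ => Rr a k P p.1 :=
  (C1f.contDiff (c1_Rr a k P)).comp contDiff_fst

end cd

/-! ### first form: `P(X)/D^k (Re q)^i (Im q)^j` -/

/-- `q'` -/
noncomputable def qd (X q b : ℂ) : ℂ := (3 * b - 1 + X ^ 2) / 2 - q ^ 2 / 4

noncomputable def Wt (a : DQ) (k : ℕ) (t : (ℕ × ℕ) × BP) (X q : ℂ) : ℝ :=
  Rr a k t.2 X * q.re ^ t.1.1 * q.im ^ t.1.2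

noncomputable def dWt (a : DQ) (k : ℕ) (t : (ℕ × ℕ) × BP) (X q b : ℂ) : ℝ :=
  ((Rr a (k + 1) (qX a k t.2) X * (X * q).re + Rr a (k + 1) (qY a k t.2) X * (X * q).im) *
    q.re ^ t.1.1 + Rr a k t.2 X * (t.1.1 * q.re ^ (t.1.1 - 1) * (qd X q b).re)) * q.im ^ t.1.2 +
    Rr a k t.2 X * q.re ^ t.1.1 * (t.1.2 * q.im ^ (t.1.2 - 1) * (qd X q b).im)

def eXq1 : Ex := Ex.add (Ex.mul (Ex.bp [[1], [1]]) (Ex.va 3))
  (Ex.sc (-1) (Ex.mul (Ex.bp [[0, 1]]) (Ex.va 4)))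
def eXq2 : Ex := Ex.add (Ex.mul (Ex.bp [[1], [1]]) (Ex.va 4)) (Ex.mul (Ex.bp [[0, 1]]) (Ex.va 3))
/-- `4 Re q'` -/
def eQ1 : Ex := Ex.add (Ex.sc 6 (Ex.va 0)) (Ex.add (Ex.bp [[0, 0, -2], [4], [2]])
  (Ex.add (Ex.sc (-1) (Ex.pow (Ex.va 3) 2)) (Ex.pow (Ex.va 4) 2)))
/-- `4 Im q'` -/
def eQ2 : Ex := Ex.add (Ex.sc 6 (Ex.va 1)) (Ex.add (Ex.bp [[0, 4], [0, 4]])
  (Ex.sc (-2) (Ex.mul (Ex.va 3) (Ex.va 4))))

def eWt (a : DQ) (k n : ℕ) (t : (ℕ × ℕ) × BP) : Ex :=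
  Ex.add (Ex.mul (Ex.mul (Ex.pow (Ex.va 3) t.1.1) (Ex.pow (Ex.va 4) t.1.2))
    (Ex.sc 4 (Ex.add (Ex.mul (Ex.bp (mu2 (qX a k t.2) (Dn a (n - k - 1)))) eXq1)
      (Ex.mul (Ex.bp (mu2 (qY a k t.2) (Dn a (n - k - 1)))) eXq2))))
    (Ex.mul (Ex.bp (mu2 t.2 (Dn a (n - k)))) (Ex.add
      (Ex.mul (Ex.sc t.1.1 (Ex.mul (Ex.pow (Ex.va 3) (t.1.1 - 1)) (Ex.pow (Ex.va 4) t.1.2))) eQ1)
      (Ex.mul (Ex.sc t.1.2 (Ex.mul (Ex.pow (Ex.va 3) t.1.1) (Ex.pow (Ex.va 4) (t.1.2 - 1)))) eQ2)))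

theorem eWt_re (a : DQ) {k n : ℕ} (t : (ℕ × ℕ) × BP) (h : k + 1 ≤ n) (X q b : ℂ) :
    (eWt a k n t).re (pc X q b) = 4 * Dd a X.re X.im ^ n * dWt a k t X q b := by
  obtain ⟨m, rfl⟩ := Nat.exists_eq_add_of_le h
  have hD := (Dd_pos a X.re X.im).ne'
  have e1 : k + 1 + m - k - 1 = m := by omega
  have e2 : k + 1 + m - k = m + 1 := by omega
  simp only [eWt, eXq1, eXq2, eQ1, eQ2, Ex.re, ev2_mu, e1, e2, pc, Dn_ev]
  unfold dWt Rr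
  have eq1 : (qd X q b).re = (3 * b.re - 1 + (X.re ^ 2 - X.im ^ 2)) / 2 -
      (q.re ^ 2 - q.im ^ 2) / 4 := by
    have e : qd X q b = (1 / 2 : ℝ) * ((3 : ℝ) * b - 1 + X * X) - (1 / 4 : ℝ) * (q * q) := by
      unfold qd
      push_cast
      ring
    rw [e]
    simp only [sub_re, add_re, mul_re, mul_im, sub_im, add_im, ofReal_re, ofReal_im, one_re, one_im]
    ring
  have eq2 : (qd X q b).im = (3 * b.im + 2 * X.re * X.im) / 2 - q.re * q.im / 2 := by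
    have e : qd X q b = (1 / 2 : ℝ) * ((3 : ℝ) * b - 1 + X * X) - (1 / 4 : ℝ) * (q * q) := by
      unfold qd
      push_cast
      ring
    rw [e]
    simp only [sub_re, add_re, mul_re, mul_im, sub_im, add_im, ofReal_re, ofReal_im, one_re, one_im]
    ring
  rw [eq1, eq2, mul_re, mul_im]
  simp only [ev2, ev1]
  have p1 : Dd a X.re X.im ^ (k + 1 + m) = Dd a X.re X.im ^ k * Dd a X.re X.im *
      Dd a X.re X.im ^ m := by rw [pow_add, pow_succ]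
  have p2 : Dd a X.re X.im ^ (k + 1) = Dd a X.re X.im ^ k * Dd a X.re X.im := by rw [pow_succ]
  have p3 : Dd a X.re X.im ^ (m + 1) = Dd a X.re X.im ^ m * Dd a X.re X.im := by rw [pow_succ]
  rw [p1, p2, p3]
  field_simp
  push_cast
  ring

theorem WOk_t (a : DQ) {k n : ℕ} (t : (ℕ × ℕ) × BP) (h : k + 1 ≤ n) :
    WOk a n (Wt a k t) (dWt a k t) (fun X q b => (eWt a k n t).re (pc X q b)) := by
  refine ⟨?_, ?_, fun x q b ξ hx hq => ?_, fun X q b => eWt_re a t h X q b⟩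
  · unfold Wt
    have h1 : Continuous fun X : ℂ => Rr a k t.2 X := (C1f.contDiff (c1_Rr a k t.2)).continuous
    have h2 : Continuous fun p : ℂ × ℂ => Rr a k t.2 p.1 := h1.comp continuous_fst
    exact (h2.mul (by fun_prop)).mul (by fun_prop)
  · unfold dWt qd
    have hq' : ContDiff ℝ 1 fun p : ℂ × ℂ × ℂ => (3 * p.2.2 - 1 + p.1 ^ 2) / 2 - p.2.1 ^ 2 / 4 :=
      (((contDiff_const.mul cdb).sub contDiff_const).add (cdX.pow 2)).div_const _ |>.sub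
        ((cdq.pow 2).div_const _)
    have hXq : ContDiff ℝ 1 fun p : ℂ × ℂ × ℂ => p.1 * p.2.1 := cdX.mul cdq
    exact (((((cdR _ _ _).mul (cdre hXq)).add ((cdR _ _ _).mul (cdim hXq))).mul
      ((cdre cdq).pow _)).add ((cdR _ _ _).mul ((contDiff_const.mul ((cdre cdq).pow _)).mul
      (cdre hq')))).mul ((cdim cdq).pow _) |>.add (((cdR _ _ _).mul ((cdre cdq).pow _)).mul
      ((contDiff_const.mul ((cdim cdq).pow _)).mul (cdim hq')))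
  · have h1 := hd_C1f (c1_Rr a k t.2) hx
    have h2 := (hd_re hq).pow t.1.1
    have h3 := (hd_im hq).pow t.1.2
    exact (h1.mul h2).mul h3

/-! ### second form: `A(X)/D^k + Re (X N(X) X')/D^k` in the variables `(X, X', X b)` -/

noncomputable def WY (a : DQ) (k : ℕ) (A N1 N2 : BP) (X q : ℂ) : ℝ :=
  Rr a k A X + (Rr a k N1 X * (X * (X * q)).re - Rr a k N2 X * (X * (X * q)).im)

/-- derivative of `X X'` -/
noncomputable def vd (X q b : ℂ) : ℂ :=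
  (3 * X * (X * b) - X ^ 2 + X ^ 4) / 2 + 7 / 4 * (X * q) ^ 2

noncomputable def dWY (a : DQ) (k : ℕ) (A N1 N2 : BP) (X q b : ℂ) : ℝ :=
  (Rr a (k + 1) (qX a k A) X * (X * q).re + Rr a (k + 1) (qY a k A) X * (X * q).im) +
  (((Rr a (k + 1) (qX a k N1) X * (X * q).re + Rr a (k + 1) (qY a k N1) X * (X * q).im) *
      (X * (X * q)).re + Rr a k N1 X * (vd X q b).re) -
    ((Rr a (k + 1) (qX a k N2) X * (X * q).re + Rr a (k + 1) (qY a k N2) X * (X * q).im) *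
      (X * (X * q)).im + Rr a k N2 X * (vd X q b).im))

/-- `Re (X Y)`, `Im (X Y)` -/
def eV1 : Ex := Ex.add (Ex.mul (Ex.bp [[1], [1]]) (Ex.va 3))
  (Ex.sc (-1) (Ex.mul (Ex.bp [[0, 1]]) (Ex.va 4)))
def eV2 : Ex := Ex.add (Ex.mul (Ex.bp [[1], [1]]) (Ex.va 4)) (Ex.mul (Ex.bp [[0, 1]]) (Ex.va 3))
/-- `4 Re (X Y)'`, `4 Im (X Y)'` : `6 X b - 2 X² + 2 X⁴ + 7 Y²` -/
def eD1 : Ex := Ex.add (Ex.sc 6 (Ex.add (Ex.mul (Ex.bp [[1], [1]]) (Ex.va 0))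
    (Ex.sc (-1) (Ex.mul (Ex.bp [[0, 1]]) (Ex.va 1)))))
  (Ex.add (Ex.bp [[0, 0, -10, 0, 2], [4, 0, -24], [10, 0, -12], [8], [2]])
    (Ex.sc 7 (Ex.add (Ex.pow (Ex.va 3) 2) (Ex.sc (-1) (Ex.pow (Ex.va 4) 2)))))
def eD2 : Ex := Ex.add (Ex.sc 6 (Ex.add (Ex.mul (Ex.bp [[1], [1]]) (Ex.va 1))
    (Ex.mul (Ex.bp [[0, 1]]) (Ex.va 0))))
  (Ex.add (Ex.bp [[0, 4, 0, -8], [0, 20, 0, -8], [0, 24], [0, 8]])
    (Ex.sc 14 (Ex.mul (Ex.va 3) (Ex.va 4))))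

def eWY (a : DQ) (k n : ℕ) (A N1 N2 : BP) : Ex :=
  Ex.add (Ex.sc 4 (Ex.add (Ex.mul (Ex.bp (mu2 (qX a k A) (Dn a (n - k - 1)))) (Ex.va 3))
      (Ex.mul (Ex.bp (mu2 (qY a k A) (Dn a (n - k - 1)))) (Ex.va 4))))
    (Ex.add (Ex.add (Ex.mul (Ex.sc 4 (Ex.add
        (Ex.mul (Ex.bp (mu2 (qX a k N1) (Dn a (n - k - 1)))) (Ex.va 3))
        (Ex.mul (Ex.bp (mu2 (qY a k N1) (Dn a (n - k - 1)))) (Ex.va 4)))) eV1)
      (Ex.sc (-1) (Ex.mul (Ex.sc 4 (Ex.add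
        (Ex.mul (Ex.bp (mu2 (qX a k N2) (Dn a (n - k - 1)))) (Ex.va 3))
        (Ex.mul (Ex.bp (mu2 (qY a k N2) (Dn a (n - k - 1)))) (Ex.va 4)))) eV2)))
    (Ex.add (Ex.mul (Ex.bp (mu2 N1 (Dn a (n - k)))) eD1)
      (Ex.sc (-1) (Ex.mul (Ex.bp (mu2 N2 (Dn a (n - k)))) eD2))))

theorem eWY_re (a : DQ) {k n : ℕ} (A N1 N2 : BP) (h : k + 1 ≤ n) (X q b : ℂ) :
    (eWY a k n A N1 N2).re (pc X (X * q) (X * b)) =
      4 * Dd a X.re X.im ^ n * dWY a k A N1 N2 X q b := by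
  obtain ⟨m, rfl⟩ := Nat.exists_eq_add_of_le h
  have hD := (Dd_pos a X.re X.im).ne'
  have e1 : k + 1 + m - k - 1 = m := by omega
  have e2 : k + 1 + m - k = m + 1 := by omega
  simp only [eWY, eV1, eV2, eD1, eD2, Ex.re, ev2_mu, e1, e2, pc, Dn_ev]
  unfold dWY Rr
  have e : vd X q b = (3 / 2 : ℝ) * (X * (X * b)) - (1 / 2 : ℝ) * (X * X) +
      (1 / 2 : ℝ) * ((X * X) * (X * X)) + (7 / 4 : ℝ) * ((X * q) * (X * q)) := by
    unfold vd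
    push_cast
    ring
  rw [e]
  obtain ⟨Y, hY⟩ : ∃ Y, Y = X * q := ⟨_, rfl⟩
  obtain ⟨B, hB⟩ : ∃ B, B = X * b := ⟨_, rfl⟩
  rw [← hY, ← hB]
  simp only [sub_re, add_re, mul_re, mul_im, sub_im, add_im, ofReal_re, ofReal_im]
  simp only [ev2, ev1]
  have p1 : Dd a X.re X.im ^ (k + 1 + m) = Dd a X.re X.im ^ k * Dd a X.re X.im *
      Dd a X.re X.im ^ m := by rw [pow_add, pow_succ]
  have p2 : Dd a X.re X.im ^ (k + 1) = Dd a X.re X.im ^ k * Dd a X.re X.im := by rw [pow_succ]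
  have p3 : Dd a X.re X.im ^ (m + 1) = Dd a X.re X.im ^ m * Dd a X.re X.im := by rw [pow_succ]
  rw [p1, p2, p3]
  field_simp
  push_cast
  ring

theorem WOk_Y (a : DQ) {k n : ℕ} (A N1 N2 : BP) (h : k + 1 ≤ n) :
    WOk a n (WY a k A N1 N2) (dWY a k A N1 N2)
      (fun X q b => (eWY a k n A N1 N2).re (pc X (X * q) (X * b))) := by
  refine ⟨?_, ?_, fun x q b ξ hx hq => ?_, fun X q b => eWY_re a A N1 N2 h X q b⟩
  · unfold WY
    have h1 : ∀ P : BP, Continuous fun p : ℂ × ℂ => Rr a k P p.1 := fun P =>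
      (C1f.contDiff (c1_Rr a k P)).continuous.comp continuous_fst
    exact (h1 A).add (((h1 N1).mul (by fun_prop)).sub ((h1 N2).mul (by fun_prop)))
  · unfold dWY vd
    have hXq : ContDiff ℝ 1 fun p : ℂ × ℂ × ℂ => p.1 * p.2.1 := cdX.mul cdq
    have hV : ContDiff ℝ 1 fun p : ℂ × ℂ × ℂ => p.1 * (p.1 * p.2.1) := cdX.mul hXq
    have hv : ContDiff ℝ 1 fun p : ℂ × ℂ × ℂ => (3 * p.1 * (p.1 * p.2.2) - p.1 ^ 2 + p.1 ^ 4) / 2 +
        7 / 4 * (p.1 * p.2.1) ^ 2 :=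
      (((((contDiff_const.mul cdX).mul (cdX.mul cdb)).sub (cdX.pow 2)).add
        (cdX.pow 4)).div_const _).add (contDiff_const.mul (hXq.pow 2))
    exact (((cdR _ _ _).mul (cdre hXq)).add ((cdR _ _ _).mul (cdim hXq))).add
      ((((((cdR _ _ _).mul (cdre hXq)).add ((cdR _ _ _).mul (cdim hXq))).mul (cdre hV)).add
      ((cdR _ _ _).mul (cdre hv))).sub
      (((((cdR _ _ _).mul (cdre hXq)).add ((cdR _ _ _).mul (cdim hXq))).mul (cdim hV)).add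
      ((cdR _ _ _).mul (cdim hv))))
  · have h1 := hd_C1f (c1_Rr a k A) hx
    have h2 := hd_C1f (c1_Rr a k N1) hx
    have h3 := hd_C1f (c1_Rr a k N2) hx
    have hv : HasDerivAt (fun t => x t * (x t * q t)) (vd (x ξ) (q ξ) b) ξ := by
      have hY : HasDerivAt (fun t => x t * q t) (x ξ * q ξ * q ξ +
          x ξ * ((3 * b - 1 + x ξ ^ 2) / 2 - q ξ ^ 2 / 4)) ξ := hx.mul hq
      refine (hx.mul hY).congr_deriv ?_
      unfold vd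
      ring
    exact h1.add ((h2.mul (hd_re hv)).sub (h3.mul (hd_im hv)))

end Pool.Agent.Helper84.CB
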