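import Pool.Agent.Helper84.EK.CentreBE
import Pool.Agent.Helper69.EK3.Disc
set_option autoImplicit false
open Complex MeasureTheory Metric Set
open scoped Real ComplexConjugate

/-!
# The centre line with the area inequality: the region and the class
-/

namespace Pool.Agent.Helper84.CB

open Pool.Agent.Helper39.Area Pool.Agent.Helper52.EK Pool.Agent.Helper69.EK3

/-- the second coefficient in terms of `X`, `Y = X'`, `Z = X''` -/
noncomputable def bc (X Y Z : ℂ) : ℂ := (X - X ^ 3 + 2 * Z - 3 / 2 * (Y ^ 2 / X)) / 3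

/-- the region of `(X, X', b)` on the centre line -/
structure RegC (X Y b : ℂ) : Prop where
  ne : X ≠ 0
  le : ‖X‖ ≤ 1
  ar : ‖Y‖ ^ 2 + 2 * ‖b‖ ^ 2 ≤ -(‖X‖ ^ 2 * Real.log (‖X‖ ^ 2))
  b1 : ‖Y + 2 * X ^ 2‖ ≤ 2 * ‖X‖
  b2 : ‖Y - 2 * X ^ 2‖ ≤ 2 * ‖X‖

/-- the class: the scaled values lie in the region -/
def CenP (X : ℂ → ℂ) (x₁ x₂ : ℝ) : Prop :=
  ∃ ρ : ℝ → ℝ, Continuous ρ ∧ (∀ ξ, 1 / 9 ≤ ρ ξ ∧ ρ ξ ≤ 1) ∧
    ∫ ξ in x₁..x₂, (1 - ρ ξ) ≤ 8 ∧ ∀ ξ ∈ Icc x₁ x₂,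
      RegC ((ρ ξ : ℂ) * X (pt ξ (π / 2))) ((ρ ξ : ℂ) ^ 2 * deriv X (pt ξ (π / 2)))
        ((ρ ξ : ℂ) ^ 3 * bc (X (pt ξ (π / 2))) (deriv X (pt ξ (π / 2)))
          (deriv (deriv X) (pt ξ (π / 2))))

/-- the area inequality is monotone in the radius -/
theorem ar_mono {r ρ u v w : ℝ} (hρ : 0 < ρ) (h : ρ ≤ r) (hw : 0 < w)
    (ha : r ^ 2 * u ^ 2 + 2 * r ^ 4 * v ^ 2 ≤ -2 * Real.log (r * w)) :
    ρ ^ 2 * u ^ 2 + 2 * ρ ^ 4 * v ^ 2 ≤ -2 * Real.log (ρ * w) := by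
  have h1 : ρ ^ 2 * u ^ 2 ≤ r ^ 2 * u ^ 2 :=
    mul_le_mul_of_nonneg_right (pow_le_pow_left₀ hρ.le h 2) (sq_nonneg _)
  have h2 : ρ ^ 4 * v ^ 2 ≤ r ^ 4 * v ^ 2 :=
    mul_le_mul_of_nonneg_right (pow_le_pow_left₀ hρ.le h 4) (sq_nonneg _)
  have h3 : Real.log (ρ * w) ≤ Real.log (r * w) :=
    Real.log_le_log (mul_pos hρ hw) (mul_le_mul_of_nonneg_right h hw.le)
  linarith

/-- the region from the inequalities at radius `ρ` -/
theorem regC_of {X Y Z : ℂ} (hX : X ≠ 0) {ρ δ : ℝ} (hρ : 0 < ρ) (hδ : ρ * (1 + δ) ≤ 1)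
    (ha : ρ ^ 2 * ‖Y / X‖ ^ 2 +
      2 * ρ ^ 4 * ‖(1 - X ^ 2 + 2 * (Z / X) - 3 / 2 * (Y / X) ^ 2) / 3‖ ^ 2 ≤
      -2 * Real.log (ρ * ‖X‖))
    (h1 : ‖2 * X + Y / X‖ ≤ 2 * (1 + δ)) (h2 : ‖-(2 * X) + Y / X‖ ≤ 2 * (1 + δ)) :
    RegC ((ρ : ℂ) * X) ((ρ : ℂ) ^ 2 * Y) ((ρ : ℂ) ^ 3 * bc X Y Z) := by
  have hn : 0 < ‖X‖ := norm_pos_iff.2 hX
  have hρn : ‖(ρ : ℂ)‖ = ρ := by rw [norm_real, Real.norm_of_nonneg hρ.le]
  have hnX : ‖(ρ : ℂ) * X‖ = ρ * ‖X‖ := by rw [norm_mul, hρn]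
  have hY : ‖Y‖ = ‖Y / X‖ * ‖X‖ := by rw [norm_div, div_mul_cancel₀ _ hn.ne']
  have hb : ‖bc X Y Z‖ = ‖(1 - X ^ 2 + 2 * (Z / X) - 3 / 2 * (Y / X) ^ 2) / 3‖ * ‖X‖ := by
    rw [← norm_mul]
    congr 1
    unfold bc
    field_simp
  have hlog : 0 ≤ -2 * Real.log (ρ * ‖X‖) := le_trans (by positivity) ha
  have hle : ρ * ‖X‖ ≤ 1 := by
    by_contra hc
    have := Real.log_pos (not_le.1 hc)
    linarith
  refine ⟨mul_ne_zero (by exact_mod_cast hρ.ne') hX, by rw [hnX]; exact hle, ?_, ?_, ?_⟩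
  · rw [hnX, norm_mul, norm_pow, hρn, norm_mul, norm_pow, hρn, hY, hb]
    have e1 : Real.log ((ρ * ‖X‖) ^ 2) = 2 * Real.log (ρ * ‖X‖) := by
      rw [Real.log_pow]
      norm_num
    rw [e1]
    have h3 := mul_le_mul_of_nonneg_left ha (sq_nonneg (ρ * ‖X‖))
    refine le_trans (le_of_eq ?_) (h3.trans (le_of_eq ?_))
    · ring
    · ring
  · have e : (ρ : ℂ) ^ 2 * Y + 2 * ((ρ : ℂ) * X) ^ 2 = (ρ : ℂ) ^ 2 * X * (2 * X + Y / X) := by
      field_simp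
      ring
    rw [e, norm_mul, norm_mul, norm_pow, hρn, hnX]
    have h3 := mul_le_mul_of_nonneg_left h1 (by positivity : 0 ≤ ρ ^ 2 * ‖X‖)
    have h4 := mul_le_mul_of_nonneg_left hδ (by positivity : 0 ≤ 2 * ρ * ‖X‖)
    nlinarith
  · have e : (ρ : ℂ) ^ 2 * Y - 2 * ((ρ : ℂ) * X) ^ 2 = (ρ : ℂ) ^ 2 * X * (-(2 * X) + Y / X) := by
      field_simp
      ring
    rw [e, norm_mul, norm_mul, norm_pow, hρn, hnX]
    have h3 := mul_le_mul_of_nonneg_left h2 (by positivity : 0 ≤ ρ ^ 2 * ‖X‖)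
    have h4 := mul_le_mul_of_nonneg_left hδ (by positivity : 0 ≤ 2 * ρ * ‖X‖)
    nlinarith

theorem dA_cent (σ : ℝ) (X Y : ℂ) : dA σ X Y (Real.sin (π / 2)) (Real.cos (π / 2)) =
    2 * ((σ : ℂ) * (2 * X) + Y / X) := by
  unfold dA e0
  rw [Real.sin_pi_div_two, Real.cos_pi_div_two]
  push_cast
  linear_combination -((σ : ℂ) * (2 * X) - 1 + Y / X) * I_sq

/-- **the class for the functions `Xf`** -/
theorem cenP_Xf {β : ℂ → ℂ} {R a : ℝ} (h : ExtR β R) (ha : 0 < a) (ha1 : a < 1)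
    (hx : Real.log (tau a) + 1 ≤ -1) : CenP (Xf β a) (Real.log (tau a) + 1) (-1) := by
  obtain ⟨δ, hδ⟩ : ∃ δ : ℝ → ℝ, δ = fun ξ => 4 * Real.exp (min ξ 0) +
      4 * Real.exp (min (Real.log (tau a) - ξ) 0) := ⟨_, rfl⟩
  have cδ : Continuous δ := by rw [hδ]; fun_prop
  have δ0 : ∀ ξ, 0 ≤ δ ξ := fun ξ => by rw [hδ]; positivity
  have δ8 : ∀ ξ, δ ξ ≤ 8 := by
    intro ξ
    rw [hδ]
    have h1 : Real.exp (min ξ 0) ≤ 1 := Real.exp_le_one_iff.2 (min_le_right _ _)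
    have h2 : Real.exp (min (Real.log (tau a) - ξ) 0) ≤ 1 :=
      Real.exp_le_one_iff.2 (min_le_right _ _)
    simp only
    linarith
  have hδe : ∀ ξ ∈ Icc (Real.log (tau a) + 1) (-1 : ℝ), δ ξ =
      4 * Real.exp ξ + 4 * Real.exp (Real.log (tau a) - ξ) := by
    intro ξ hξ
    rw [hδ]
    simp only
    rw [min_eq_left (by linarith [hξ.2]), min_eq_left (by linarith [hξ.1])]
  have hI : ∫ ξ in (Real.log (tau a) + 1)..(-1), δ ξ ≤ 8 := by
    have e : ∫ ξ in (Real.log (tau a) + 1)..(-1), δ ξ = ∫ ξ in (Real.log (tau a) + 1)..(-1),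
        (4 * Real.exp ξ + 4 * Real.exp (Real.log (tau a) - ξ)) := by
      refine intervalIntegral.integral_congr fun ξ hξ => ?_
      rw [uIcc_of_le hx] at hξ
      exact hδe ξ hξ
    rw [e]
    have i1 : IntervalIntegrable (fun ξ : ℝ => 4 * Real.exp ξ) volume
        (Real.log (tau a) + 1) (-1) :=
      (by fun_prop : Continuous fun ξ : ℝ => 4 * Real.exp ξ).intervalIntegrable _ _
    have i2 : IntervalIntegrable (fun ξ : ℝ => 4 * Real.exp (Real.log (tau a) - ξ)) volume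
        (Real.log (tau a) + 1) (-1) :=
      (by fun_prop : Continuous fun ξ : ℝ => 4 * Real.exp (Real.log (tau a) - ξ)).intervalIntegrable
        _ _
    rw [intervalIntegral.integral_add i1 i2, intervalIntegral.integral_const_mul,
      intervalIntegral.integral_const_mul,
      intervalIntegral.integral_comp_sub_left (fun u => Real.exp u) (Real.log (tau a)),
      exp_int, exp_int]
    have e1 : Real.exp (-1) ≤ 1 := Real.exp_le_one_iff.2 (by norm_num)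
    have e2 := Real.exp_pos (Real.log (tau a) + 1)
    have e3 : Real.exp (Real.log (tau a) - (Real.log (tau a) + 1)) ≤ 1 :=
      Real.exp_le_one_iff.2 (by linarith)
    have e4 := Real.exp_pos (Real.log (tau a) - -1)
    linarith
  have hpos : ∀ ξ, 0 < 1 + δ ξ := fun ξ => by linarith [δ0 ξ]
  have cρ : Continuous fun ξ => (1 + δ ξ)⁻¹ :=
    (continuous_const.add cδ).inv₀ fun ξ => (hpos ξ).ne'
  refine ⟨fun ξ => (1 + δ ξ)⁻¹, cρ, fun ξ => ⟨?_, ?_⟩, ?_, fun ξ hξ => ?_⟩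
  · rw [one_div]
    exact inv_anti₀ (hpos ξ) (by linarith [δ8 ξ])
  · exact inv_le_one_of_one_le₀ (by linarith [δ0 ξ])
  · refine le_trans (intervalIntegral.integral_mono_on hx
      ((continuous_const.sub cρ).intervalIntegrable _ _) (cδ.intervalIntegrable _ _)
      fun ξ _ => ?_) hI
    have h1 : 1 - (1 + δ ξ)⁻¹ = δ ξ / (1 + δ ξ) := by
      have := (hpos ξ).ne'
      field_simp
      ring
    rw [h1]
    exact div_le_self (δ0 ξ) (by linarith [δ0 ξ])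
  · have hτ : 0 < tau a := by
      unfold tau
      have : 0 < 1 - a := by linarith
      positivity
    obtain ⟨hX0, hr0, hr1, har⟩ := Pool.Agent.Helper84.EK.centre_be h ha ha1 (ξ := ξ)
      (by linarith [hξ.1]) (by linarith [hξ.2]) rfl rfl rfl rfl
    obtain ⟨_, d1, d2⟩ := disc_Xf h ha ha1 hξ.1 hξ.2 (η := π / 2) (by positivity)
      (by linarith [Real.pi_pos])
    rw [← hδe ξ hξ] at d1 d2
    -- comparison of the radii
    have hr : (1 + δ ξ)⁻¹ ≤ (max ((1 + Real.exp ξ) / (1 - Real.exp ξ))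
        ((Real.exp ξ + tau a) / (Real.exp ξ - tau a)))⁻¹ := by
      have hhalf : Real.exp (-1) ≤ 1 / 2 := by
        have h9 : Real.exp (-1) < 0.3678794412 := Real.exp_neg_one_lt_d9
        linarith
      have key : ∀ q : ℝ, 0 < q → q ≤ 1 / 2 → (1 + q) / (1 - q) ≤ 1 + 4 * q := by
        intro q hq hq2
        rw [div_le_iff₀ (by linarith)]
        nlinarith
      have hy : Real.exp ξ ≤ 1 / 2 := (Real.exp_le_exp.mpr hξ.2).trans hhalf
      have hq : Real.exp (Real.log (tau a) - ξ) ≤ 1 / 2 :=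
        (Real.exp_le_exp.mpr (by linarith [hξ.1])).trans hhalf
      have hy0 := Real.exp_pos ξ
      have hq0 := Real.exp_pos (Real.log (tau a) - ξ)
      have hτe : tau a = Real.exp ξ * Real.exp (Real.log (tau a) - ξ) := by
        rw [← Real.exp_add, add_sub_cancel, Real.exp_log hτ]
      refine inv_anti₀ (lt_of_lt_of_le (div_pos (by linarith) (by linarith)) (le_max_left _ _))
        (max_le ?_ ?_)
      · rw [hδe ξ hξ]
        have := key _ hy0 hy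
        linarith
      · have h3 := key _ hq0 hq
        have h4 : (Real.exp ξ + tau a) / (Real.exp ξ - tau a) =
            (1 + Real.exp (Real.log (tau a) - ξ)) / (1 - Real.exp (Real.log (tau a) - ξ)) := by
          rw [div_eq_div_iff]
          · linear_combination 2 * hτe
          · have h5 : tau a < Real.exp ξ := (Real.log_lt_iff_lt_exp hτ).mp (by linarith [hξ.1])
            linarith
          · linarith
        rw [h4, hδe ξ hξ]
        linarith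
    have hρ0 : 0 < (1 + δ ξ)⁻¹ := inv_pos.2 (hpos ξ)
    have har' := ar_mono hρ0 hr (norm_pos_iff.2 hX0) har
    rw [dA_cent, norm_mul] at d1 d2
    have n2 : ‖(2:ℂ)‖ = 2 := by simp
    rw [n2] at d1 d2
    have e1 : ((1 : ℝ) : ℂ) * (2 * Xf β a (pt ξ (π / 2))) = 2 * Xf β a (pt ξ (π / 2)) := by simp
    have e2 : ((-1 : ℝ) : ℂ) * (2 * Xf β a (pt ξ (π / 2))) = -(2 * Xf β a (pt ξ (π / 2))) := by
      simp
    rw [e1] at d1
    rw [e2] at d2
    exact regC_of hX0 hρ0 (δ := δ ξ) (inv_mul_cancel₀ (hpos ξ).ne').le har' (by linarith)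
      (by linarith)

end Pool.Agent.Helper84.CB
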