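import Pool.Agent.Helper84.CB.DatC
set_option autoImplicit false
open Complex MeasureTheory Metric Set
open scoped Real ComplexConjugate

/-!
# EK6 data with the area inequality on the centre line
-/

namespace Pool.Agent.Helper84.CB

open Pool.Sos71
open Pool.EK71 Pool.Agent.Helper52.EK Pool.Agent.Helper2.EK
open Pool.Agent.Helper69.EK3 hiding qX qY qL Rr c1_Rr c2_Rr Rr_le Dn Dn_ev Rr_conj_even Rr_conj_odd Rs dEta_conj
open Pool.Agent.Helper69.EK5 (DQ Dd Dd_pos Dd_low DL e_D qX qY qL Rr c1_Rr c2_Rr Rr_le Dn Dn_ev)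
open Pool.Agent.Helper69.EK6
open Pool.Agent.Helper69.EK3.Dat (SideOk half_bd pi_err disc_im)

variable {c : Pool.Agent.Helper69.EK6.Dat} {ka kb p0 p1 p2 la lb q0 q1 q2 : ℝ} {Ln Ld Ln' Ld' : ℤ}

/-- **the bound for one target from the data, general centre condition** -/
theorem K_cen (o : c.Ok2 ka kb p0 p1 p2 la lb q0 q1 q2 Ln Ld Ln' Ld')
    (hIn : Side c.K Ln Ld c.tIn) (hOut : Side c.K Ln' Ld' c.tOut)
    (hC : CenE (c.Ecp c.c1 (355 / 113)))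
    {κ : ℝ} (hκ : (c.lam : ℝ) + c.c1 + (c.c1 + 2 * |(c.a2 : ℝ)|) / 10 ^ 7 < 2 * κ * c.M) :
    ∃ C a₀ : ℝ, a₀ < 1 ∧ ∀ (β : ℂ → ℂ) (R a : ℝ), ExtR β R → a₀ < a →
      a < 1 → Kf (Pool.Agent.Helper52.EK.wf (Gq ka kb p0 p1 p2 la lb q0 q1 q2) β) 1 (-1)
        (Real.log a) ≤ κ * Real.log (‖N β a‖ / (1 - a ^ 2)) + C := by
  have w := Pool.Agent.Helper69.EK6.Dat.wf_iff c o.wf
  obtain ⟨CG, hGl⟩ := Gq_glip o.inn o.out
  have hM : (0:ℝ) < c.M := by exact_mod_cast o.M0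
  have hlam : (0:ℝ) ≤ c.lam := by exact_mod_cast o.lam0
  have hc1 : (0:ℝ) ≤ c.c1 := by exact_mod_cast o.c10
  obtain ⟨p, hp⟩ : ∃ p : ℝ, p = 355 / 113 := ⟨_, rfl⟩
  obtain ⟨e1, e2⟩ := pi_err hp
  have hpi := Real.pi_pos
  obtain ⟨ε, hε⟩ : ∃ ε : ℝ, ε = (c.c1 + 2 * |(c.a2 : ℝ)|) * ((p - π) / π) := ⟨_, rfl⟩
  have hA : 0 ≤ (c.c1 : ℝ) + 2 * |(c.a2 : ℝ)| := by positivity
  have hε0 : 0 ≤ ε := by
    rw [hε]
    exact mul_nonneg hA (div_nonneg e1 hpi.le)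
  have hε1 : ε ≤ (c.c1 + 2 * |(c.a2 : ℝ)|) / 10 ^ 7 := by
    rw [hε, div_eq_mul_one_div (_ + _ : ℝ) (10 ^ 7 : ℝ)]
    exact mul_le_mul_of_nonneg_left e2 hA
  have hεπ : ε * π = (c.c1 + 2 * |(c.a2 : ℝ)|) * (p - π) := by
    rw [hε]
    field_simp
  obtain ⟨k, hk⟩ : ∃ k : ℝ, k = c.c1 + ε := ⟨_, rfl⟩
  have n1 := (isNull_har (β := fun _ => (1:ℝ)) continuous_const 2 le_rfl).const_mul (c.a2 : ℝ)
  have n2 := (isNull_har (β := fun _ => (1:ℝ)) continuous_const 1 (by norm_num)).const_mul k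
  have hN := (((Pool.Agent.Helper69.EK6.Dat.isNull_NT w).add n1).add n2).const_mul (1 / (c.M : ℝ))
  have hre2 : ∀ X : ℂ, ((X - 1) ^ 2).re = (X.re - 1) ^ 2 - X.im ^ 2 := by
    intro X
    rw [pow_two (X - 1), mul_re]
    simp
    ring
  have hre1 : ∀ X : ℂ, ((X - 1) ^ 1).re = X.re - 1 := by
    intro X
    simp
  have hint : ∫ _ in (0:ℝ)..(π / 2), (1:ℝ) = π / 2 := by simp
  obtain ⟨B, hB0, hpt⟩ := o.point hIn hOut
  -- the centre condition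
  have hC1 : CenE (c.Ecp k π) := by
    obtain ⟨Fx, Fy, hF⟩ : ∃ Fx Fy : ℂ → ℝ, C1f (fun X => c.Ecp k π X - c.Ecp c.c1 (355 / 113) X)
        Fx Fy := by
      obtain ⟨Ax, Ay, hA'⟩ := Pool.Agent.Helper69.EK6.Dat.Ecp_c1 (c := c) k π
      obtain ⟨Bx, By, hB'⟩ := Pool.Agent.Helper69.EK6.Dat.Ecp_c1 (c := c) c.c1 (355 / 113)
      exact ⟨_, _, c1_sub hA' hB'⟩
    refine hC.add hF (fun X => by ring) fun X hX => ?_
    rw [← hp]
    have h4 : c.Ecp k π X - c.Ecp c.c1 p X = (ε * π - c.c1 * (p - π)) * (1 - X.re) +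
        c.a2 * (p - π) * ((X.re - 1) ^ 2 - X.im ^ 2) := by
      unfold Pool.Agent.Helper69.EK6.Dat.Ecp
      rw [hk]
      ring
    rw [hεπ] at h4
    have h5 := disc_im hX
    have h6 : -(|(c.a2 : ℝ)| * (2 * (1 - X.re))) ≤ c.a2 * ((X.re - 1) ^ 2 - X.im ^ 2) := by
      have h7 : |(c.a2 : ℝ) * ((X.re - 1) ^ 2 - X.im ^ 2)| ≤ |(c.a2 : ℝ)| * (2 * (1 - X.re)) := by
        rw [abs_mul]
        exact mul_le_mul_of_nonneg_left h5 (abs_nonneg _)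
      exact (abs_le.1 h7).1
    have h8 := mul_le_mul_of_nonneg_left h6 e1
    linarith
  have hC2 : CenE fun X => 1 / (c.M : ℝ) * c.Ecp k π X := hC1.const_mul (by positivity)
  obtain ⟨Q, Wc, hQ⟩ := hC2.cenD (K := fun X Y => 1 / (c.M : ℝ) * (c.KT X Y +
      (c.a2 : ℝ) * ((∫ _ in (0:ℝ)..(π / 2), (1:ℝ)) * ((X - 1) ^ 2).re) +
      k * ((∫ _ in (0:ℝ)..(π / 2), (1:ℝ)) * ((X - 1) ^ 1).re))) (by
    intro X Y hX
    have h1 := Pool.Agent.Helper69.EK6.Dat.KT_conj w X Y k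
    rw [hint, hre2, hre1, hre2, hre1]
    linear_combination (1 / (c.M : ℝ)) * h1)
  refine K_one3_cd (M := B / c.M) (lam := c.lam / c.M) (k₂ := (c.lam + k) / c.M)
    (div_nonneg hB0 hM.le) (div_nonneg hlam hM.le) ?_ ?_ hGl (Gq_conj _ _ _ _ _ _ _ _ _ _) hN ?_
    hQ
  · rw [div_le_div_iff_of_pos_right hM, hk]
    linarith
  · rw [div_lt_iff₀ hM, hk]
    linarith
  · intro Z Y hZ η hη
    obtain ⟨l1, l2, a1, a2, a3, a4, h1⟩ := hpt Z Y hZ η hη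
    refine ⟨0, l1 / c.M, l2 / c.M, le_rfl, div_nonneg hB0 hM.le, div_nonneg a1 hM.le,
      div_le_div_of_nonneg_right a2 hM.le, div_nonneg a3 hM.le,
      div_le_div_of_nonneg_right a4 hM.le, ?_⟩
    have e0 : ‖Z - 1‖ ^ 2 = ‖Z‖ ^ 2 - 2 * Z.re + 1 := by
      rw [nq_sq, nq_sq]
      simp
      ring
    rw [e0] at h1
    rw [hre2, hre1]
    refine le_of_mul_le_mul_left (le_trans (le_of_eq ?_) (h1.trans (le_of_eq ?_))) hM
    · field_simp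
      ring
    · field_simp
      ring

/-- **the integral means from the data, general centre condition** -/
theorem moments_cen (o : c.Ok2 ka kb p0 p1 p2 la lb q0 q1 q2 Ln Ld Ln' Ld')
    (hIn : Side c.K Ln Ld c.tIn) (hOut : Side c.K Ln' Ld' c.tOut)
    (hC : CenE (c.Ecp c.c1 (355 / 113)))
    {κ : ℝ} (h1 : 1 ≤ κ)
    (hκ : (c.lam : ℝ) + c.c1 + (c.c1 + 2 * |(c.a2 : ℝ)|) / 10 ^ 7 < 2 * κ * c.M) :
    ∀ p : ℝ, κ ≤ p → ∃ C : ℝ, ∀ ψ : ℂ → ℂ, DifferentiableOn ℂ ψ {z : ℂ | 1 < ‖z‖} →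
      InjOn ψ {z : ℂ | 1 < ‖z‖} →
      (∃ b : ℂ, Filter.Tendsto (fun z => ψ z - z) (Bornology.cobounded ℂ) (nhds b)) →
      ∀ R : ℝ, 1 < R →
      (2 * π)⁻¹ * (∫ θ in (0:ℝ)..(2 * π), ‖deriv ψ (R * Complex.exp (θ * I))‖ ^ (-p)) ≤
        C * (R ^ 2 / (R ^ 2 - 1)) ^ (p - 1) := by
  have k1 := K_cen o hIn hOut hC hκ
  obtain ⟨CG, hGl⟩ := Gq_glip o.inn o.out
  have k2 := Pool.Agent.Helper61.EK.gibbs_of (κ := κ) (G := (Gq ka kb p0 p1 p2 la lb q0 q1 q2))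
    Pool.Agent.Helper5.EK.entropy
    (fun hw _ h1 h2 => Pool.Agent.Helper26.EK.Kf_cont hw h1 h2)
    (fun h => Pool.Agent.Helper70.EK.wf_cont hGl h) k1
  exact Pool.Agent.Helper32.EK.final (Pool.Agent.Helper28.EK.moment_Ext h1 k2)

/-! ### the centre condition from integer lists -/

/-- the centre target, variables `(X, q, b)` -/
def cenQ (c : Pool.Agent.Helper69.EK6.Dat) (kW n : ℕ) (L : List ((ℕ × ℕ) × BP)) : Ex :=
  sumE (eWt c.a kW n) (Ex.bp (mu2 c.cen (Dn c.a (n - c.K)))) L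

/-- the centre target, variables `(X, X', X b)` -/
def cenY (c : Pool.Agent.Helper69.EK6.Dat) (kW n : ℕ) (A N1 N2 : BP) : Ex :=
  Ex.add (Ex.bp (mu2 c.cen (Dn c.a (n - c.K)))) (eWY c.a kW n A N1 N2)

/-- **the centre condition, variables `(X, q, b)`** -/
theorem cen_q (w : c.wf = true) {kW n : ℕ} (h1 : c.K ≤ n) (h2 : kW + 1 ≤ n)
    (L : List ((ℕ × ℕ) × BP)) (hpos : ∀ x : Pnt, PReg x → 0 ≤ (cenQ c kW n L).re x) :
    CenE (c.Ecp c.c1 (355 / 113)) := by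
  have w' := Pool.Agent.Helper69.EK6.Dat.wf_iff c w
  obtain ⟨Ex', Ey', hE⟩ := Pool.Agent.Helper69.EK6.Dat.Ecp_c1 (c := c) c.c1 (355 / 113)
  refine cenE_of h1 (S := 1356 * 2 ^ c.h) (by positivity) hE
    (fun X => Pool.Agent.Helper69.EK6.Dat.cen_ev w' X)
    (WOk.list L fun t _ => WOk_t c.a t h2) fun X q b hR => ?_
  have h3 := hpos (pc X q b) hR.preg
  have e : (cenQ c kW n L).re (pc X q b) = (L.map fun t => (eWt c.a kW n t).re (pc X q b)).sum +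
      ev2 (X.re - 1) X.im (mu2 c.cen (Dn c.a (n - c.K))) := by
    unfold cenQ
    rw [sumE_re]
    rfl
  rw [e] at h3
  linarith

/-- **the centre condition, variables `(X, X', X b)`** -/
theorem cen_Y (w : c.wf = true) {kW n : ℕ} (h1 : c.K ≤ n) (h2 : kW + 1 ≤ n)
    (A N1 N2 : BP) (hpos : ∀ x : Pnt, PRegY x → 0 ≤ (cenY c kW n A N1 N2).re x) :
    CenE (c.Ecp c.c1 (355 / 113)) := by
  have w' := Pool.Agent.Helper69.EK6.Dat.wf_iff c w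
  obtain ⟨Ex', Ey', hE⟩ := Pool.Agent.Helper69.EK6.Dat.Ecp_c1 (c := c) c.c1 (355 / 113)
  refine cenE_of h1 (S := 1356 * 2 ^ c.h) (by positivity) hE
    (fun X => Pool.Agent.Helper69.EK6.Dat.cen_ev w' X) (WOk_Y c.a A N1 N2 h2)
    fun X q b hR => ?_
  exact hpos (pc X (X * q) (X * b)) hR.pregY

end Pool.Agent.Helper84.CB
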