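import Pool.Agent.Helper84.CB.Strip
set_option autoImplicit false
open Complex MeasureTheory Metric Set
open scoped Real ComplexConjugate

/-!
# The area inequality on the centre line, functional form
-/

namespace Pool.Agent.Helper84.CB

open Pool.Agent.Helper39.Area Pool.Agent.Helper52.EK Pool.Agent.Helper69.EK3

/-- **The centre terms, functional form**: if `K X ξ + K (mir X) ξ = - E (X, X', b) + d/dξ W (X, X')`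
with `E ≥ 0` on the region, then the integral of the centre terms is bounded above. -/
theorem cen_F {K : (ℂ → ℂ) → ℝ → ℝ} {Q : ℂ → ℂ → ℂ → ℝ} {Wc : ℂ → ℂ → ℝ}
    (hQ : ∀ X Y b : ℂ, RegC X Y b → 0 ≤ Q X Y b)
    (hL : LocallyLipschitz fun p : ℂ × ℂ × ℂ => Q p.1 p.2.1 p.2.2)
    (cW : Continuous fun p : ℂ × ℂ => Wc p.1 p.2)
    (cK : ∀ (X : ℂ → ℂ) (x₁ x₂ : ℝ), NiceH X x₁ x₂ →
      ContinuousOn (fun ξ => K X ξ + K (mir X) ξ) (Icc x₁ x₂))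
    (hd : ∀ (X : ℂ → ℂ) (x₁ x₂ : ℝ), NiceH X x₁ x₂ → ∀ ξ ∈ Icc x₁ x₂,
      HasDerivAt (fun t : ℝ => Wc (X (pt t (π / 2))) (deriv X (pt t (π / 2))))
        ((K X ξ + K (mir X) ξ) + Q (X (pt ξ (π / 2))) (deriv X (pt ξ (π / 2)))
          (bc (X (pt ξ (π / 2))) (deriv X (pt ξ (π / 2))) (deriv (deriv X) (pt ξ (π / 2))))) ξ) :
    ∀ k : ℝ, 0 ≤ k → ∃ C : ℝ, ∀ (l x₁ x₂ : ℝ) (χ χ₁ χ₂ : ℝ → ℝ) (X : ℂ → ℂ),
      Cut k l x₁ x₂ χ χ₁ χ₂ → x₁ ≤ x₂ → NiceH X x₁ x₂ → CenP X x₁ x₂ →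
      ∫ ξ in x₁..x₂, χ ξ * (K X ξ + K (mir X) ξ) ≤ C := by
  intro k hk
  obtain ⟨C, hC⟩ := line_c hQ hL (Wc := fun X Y => -Wc X Y) cW.neg hk
  refine ⟨C, fun l x₁ x₂ χ χ₁ χ₂ X hc hx hX hP => ?_⟩
  refine hC l x₁ x₂ χ χ₁ χ₂ X _ hc hx hX hP (cK X x₁ x₂ hX) fun ξ hξ => ?_
  exact (hd X x₁ x₂ hX ξ hξ).neg.congr_deriv (by ring)

/-- the linear term: from the class -/
theorem CenP.re_le {X : ℂ → ℂ} {x₁ x₂ : ℝ} (h : CenP X x₁ x₂) :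
    ∃ δ : ℝ → ℝ, Continuous δ ∧ (∀ ξ ∈ Icc x₁ x₂, 0 ≤ δ ξ) ∧
      (∀ ξ ∈ Icc x₁ x₂, ‖X (pt ξ (π / 2))‖ ≤ 1 + δ ξ) ∧ ∫ ξ in x₁..x₂, δ ξ ≤ 72 := by
  obtain ⟨ρ, cρ, hρ, hI, hR⟩ := h
  refine ⟨fun ξ => 9 * (1 - ρ ξ), by fun_prop, fun ξ _ => by have := (hρ ξ).2; linarith,
    fun ξ hξ => ?_, ?_⟩
  · have h3 := (hR ξ hξ).le
    obtain ⟨r1, r2⟩ := hρ ξ
    have hρ0 : 0 < ρ ξ := by linarith
    rw [norm_mul, norm_real, Real.norm_of_nonneg hρ0.le] at h3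
    have h4 : ‖X (pt ξ (π / 2))‖ ≤ 9 := by nlinarith [norm_nonneg (X (pt ξ (π / 2)))]
    nlinarith [norm_nonneg (X (pt ξ (π / 2)))]
  · rw [intervalIntegral.integral_const_mul]
    linarith

end Pool.Agent.Helper84.CB
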