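import Pool.Agent.Helper84.CB.Defs
set_option autoImplicit false
open Complex MeasureTheory Metric Set
open scoped Real ComplexConjugate

/-!
# The centre line with the area inequality: the integrated inequality
-/

namespace Pool.Agent.Helper84.CB

open Pool.Agent.Helper39.Area Pool.Agent.Helper52.EK Pool.Agent.Helper69.EK3

/-- the values of `Q` near the region -/
theorem Q_low {Q : ℂ → ℂ → ℂ → ℝ} (hQ : ∀ X Y b : ℂ, RegC X Y b → 0 ≤ Q X Y b)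
    (hQL : LocallyLipschitz fun p : ℂ × ℂ × ℂ => Q p.1 p.2.1 p.2.2) :
    ∃ M : ℝ, 0 ≤ M ∧ ∀ (X Y b : ℂ) (ρ : ℝ), 1 / 9 ≤ ρ → ρ ≤ 1 →
      RegC ((ρ : ℂ) * X) ((ρ : ℂ) ^ 2 * Y) ((ρ : ℂ) ^ 3 * b) → -(M * (1 - ρ)) ≤ Q X Y b := by
  obtain ⟨K, hK⟩ := hQL.locallyLipschitzOn.exists_lipschitzOnWith_of_compact
    (s := closedBall (0 : ℂ × ℂ × ℂ) 729) (isCompact_closedBall _ _)
  refine ⟨K * 2187, by positivity, fun X Y b ρ h1 h2 hR => ?_⟩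
  have hρ0 : 0 < ρ := by linarith
  have hρn : ‖(ρ : ℂ)‖ = ρ := by rw [norm_real, Real.norm_of_nonneg hρ0.le]
  have x1 : ρ * ‖X‖ ≤ 1 := by
    have := hR.le
    rwa [norm_mul, hρn] at this
  have har := hR.ar
  have hlog : -(‖(ρ : ℂ) * X‖ ^ 2 * Real.log (‖(ρ : ℂ) * X‖ ^ 2)) ≤ 1 := by
    have hp : 0 < ‖(ρ : ℂ) * X‖ ^ 2 := pow_pos (norm_pos_iff.2 hR.ne) 2
    have h3 := Real.one_sub_inv_le_log_of_pos hp
    have h4 := mul_le_mul_of_nonneg_left h3 hp.le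
    have h5 : ‖(ρ : ℂ) * X‖ ^ 2 * (1 - (‖(ρ : ℂ) * X‖ ^ 2)⁻¹) = ‖(ρ : ℂ) * X‖ ^ 2 - 1 := by
      rw [mul_sub, mul_one, mul_inv_cancel₀ hp.ne']
    rw [h5] at h4
    linarith
  have hsum : ‖(ρ : ℂ) ^ 2 * Y‖ ^ 2 + 2 * ‖(ρ : ℂ) ^ 3 * b‖ ^ 2 ≤ 1 := har.trans hlog
  have y1 : ‖(ρ : ℂ) ^ 2 * Y‖ ≤ 1 := by
    have : ‖(ρ : ℂ) ^ 2 * Y‖ ^ 2 ≤ 1 := by nlinarith [sq_nonneg ‖(ρ : ℂ) ^ 3 * b‖]
    nlinarith [norm_nonneg ((ρ : ℂ) ^ 2 * Y)]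
  have b1 : ‖(ρ : ℂ) ^ 3 * b‖ ≤ 1 := by
    have : ‖(ρ : ℂ) ^ 3 * b‖ ^ 2 ≤ 1 := by
      nlinarith [sq_nonneg ‖(ρ : ℂ) ^ 2 * Y‖, sq_nonneg ‖(ρ : ℂ) ^ 3 * b‖]
    nlinarith [norm_nonneg ((ρ : ℂ) ^ 3 * b)]
  rw [norm_mul, norm_pow, hρn] at y1 b1
  have x2 : ‖X‖ ≤ 9 := by nlinarith [norm_nonneg X]
  have y2 : ‖Y‖ ≤ 81 := by
    have h3 : (1 / 9 : ℝ) ^ 2 ≤ ρ ^ 2 := pow_le_pow_left₀ (by norm_num) h1 2
    nlinarith [norm_nonneg Y]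
  have b2 : ‖b‖ ≤ 729 := by
    have h3 : (1 / 9 : ℝ) ^ 3 ≤ ρ ^ 3 := pow_le_pow_left₀ (by norm_num) h1 3
    nlinarith [norm_nonneg b]
  have hd : (0:ℝ) ≤ 1 - ρ := by linarith
  have m1 : ((X, Y, b) : ℂ × ℂ × ℂ) ∈ closedBall (0 : ℂ × ℂ × ℂ) 729 := by
    rw [mem_closedBall_zero_iff, Prod.norm_def, Prod.norm_def]
    exact max_le (by linarith) (max_le (by linarith) b2)
  have m2 : (((ρ : ℂ) * X, (ρ : ℂ) ^ 2 * Y, (ρ : ℂ) ^ 3 * b) : ℂ × ℂ × ℂ) ∈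
      closedBall (0 : ℂ × ℂ × ℂ) 729 := by
    rw [mem_closedBall_zero_iff, Prod.norm_def, Prod.norm_def]
    refine max_le ?_ (max_le ?_ ?_)
    · simp only
      rw [norm_mul, hρn]
      linarith
    · simp only
      rw [norm_mul, norm_pow, hρn]
      linarith
    · simp only
      rw [norm_mul, norm_pow, hρn]
      linarith
  have hL := hK.dist_le_mul _ m1 _ m2
  have hdist : dist ((X, Y, b) : ℂ × ℂ × ℂ)
      ((ρ : ℂ) * X, (ρ : ℂ) ^ 2 * Y, (ρ : ℂ) ^ 3 * b) ≤ 2187 * (1 - ρ) := by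
    rw [dist_eq_norm, Prod.norm_def, Prod.norm_def]
    refine max_le ?_ (max_le ?_ ?_)
    · simp only [Prod.fst_sub]
      have e : X - (ρ : ℂ) * X = ((1 - ρ : ℝ) : ℂ) * X := by push_cast; ring
      rw [e, norm_mul, norm_real, Real.norm_of_nonneg hd]
      nlinarith [norm_nonneg X]
    · simp only [Prod.snd_sub, Prod.fst_sub]
      have e : Y - (ρ : ℂ) ^ 2 * Y = ((1 - ρ : ℝ) : ℂ) * ((1 + ρ : ℝ) : ℂ) * Y := by
        push_cast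
        ring
      rw [e, norm_mul, norm_mul, norm_real, norm_real, Real.norm_of_nonneg hd,
        Real.norm_of_nonneg (by linarith)]
      have h3 : (1 - ρ) * (1 + ρ) ≤ (1 - ρ) * 2 := mul_le_mul_of_nonneg_left (by linarith) hd
      have h4 := mul_le_mul h3 y2 (norm_nonneg Y) (by positivity)
      linarith
    · simp only [Prod.snd_sub]
      have e : b - (ρ : ℂ) ^ 3 * b = ((1 - ρ : ℝ) : ℂ) * ((1 + ρ + ρ ^ 2 : ℝ) : ℂ) * b := by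
        push_cast
        ring
      rw [e, norm_mul, norm_mul, norm_real, norm_real, Real.norm_of_nonneg hd,
        Real.norm_of_nonneg (by positivity)]
      have h3 : (1 - ρ) * (1 + ρ + ρ ^ 2) ≤ (1 - ρ) * 3 :=
        mul_le_mul_of_nonneg_left (by nlinarith) hd
      have h4 := mul_le_mul h3 b2 (norm_nonneg b) (by positivity)
      linarith
  have hq := hQ _ _ _ hR
  have h5 : dist (Q X Y b) (Q ((ρ : ℂ) * X) ((ρ : ℂ) ^ 2 * Y) ((ρ : ℂ) ^ 3 * b)) ≤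
      K * (2187 * (1 - ρ)) := hL.trans (mul_le_mul_of_nonneg_left hdist K.coe_nonneg)
  rw [Real.dist_eq] at h5
  have h6 := (abs_le.1 h5).1
  linarith

/-- **the integrated inequality on the centre line** -/
theorem line_c {Q : ℂ → ℂ → ℂ → ℝ} (hQ : ∀ X Y b : ℂ, RegC X Y b → 0 ≤ Q X Y b)
    (hQL : LocallyLipschitz fun p : ℂ × ℂ × ℂ => Q p.1 p.2.1 p.2.2)
    {Wc : ℂ → ℂ → ℝ} (cW : Continuous fun p : ℂ × ℂ => Wc p.1 p.2) {k : ℝ} (hk : 0 ≤ k) :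
    ∃ C : ℝ, ∀ (l x₁ x₂ : ℝ) (χ χ₁ χ₂ : ℝ → ℝ) (X : ℂ → ℂ) (e : ℝ → ℝ),
      Cut k l x₁ x₂ χ χ₁ χ₂ → x₁ ≤ x₂ → NiceH X x₁ x₂ → CenP X x₁ x₂ →
      ContinuousOn e (Icc x₁ x₂) →
      (∀ ξ ∈ Icc x₁ x₂, HasDerivAt (fun t : ℝ => Wc (X (pt t (π / 2))) (deriv X (pt t (π / 2))))
        (- e ξ - Q (X (pt ξ (π / 2))) (deriv X (pt ξ (π / 2)))
          (bc (X (pt ξ (π / 2))) (deriv X (pt ξ (π / 2))) (deriv (deriv X) (pt ξ (π / 2))))) ξ) →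
      ∫ ξ in x₁..x₂, χ ξ * e ξ ≤ C := by
  obtain ⟨M, hM, hlow⟩ := Q_low hQ hQL
  obtain ⟨B, hB⟩ := (isCompact_closedBall (0 : ℂ × ℂ) 81).bddAbove_image cW.abs.continuousOn
  have hB' : ∀ Z ∈ closedBall (0 : ℂ × ℂ) 81, |Wc Z.1 Z.2| ≤ B :=
    fun Z hZ => hB (mem_image_of_mem _ hZ)
  have hB0 : 0 ≤ B := (abs_nonneg _).trans (hB' 0 (by simp))
  refine ⟨M * 8 + B * (2 * k), fun l x₁ x₂ χ χ₁ χ₂ X e hc hx hX hP ce hd => ?_⟩
  obtain ⟨ρ, cρ, hρ, hI, hR⟩ := hP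
  obtain ⟨x, hxd⟩ : ∃ x : ℝ → ℂ, x = fun ξ => X (pt ξ (π / 2)) := ⟨_, rfl⟩
  obtain ⟨y, hyd⟩ : ∃ y : ℝ → ℂ, y = fun ξ => deriv X (pt ξ (π / 2)) := ⟨_, rfl⟩
  obtain ⟨z, hzd⟩ : ∃ z : ℝ → ℂ, z = fun ξ => deriv (deriv X) (pt ξ (π / 2)) := ⟨_, rfl⟩
  have cx : ContinuousOn x (Icc x₁ x₂) := by rw [hxd]; exact contC hX.an.continuousOn
  have cy : ContinuousOn y (Icc x₁ x₂) := by rw [hyd]; exact contC hX.an.deriv.continuousOn
  have cz : ContinuousOn z (Icc x₁ x₂) := by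
    rw [hzd]; exact contC hX.an.deriv.deriv.continuousOn
  have hne : ∀ ξ ∈ Icc x₁ x₂, x ξ ≠ 0 := fun ξ hξ => by
    rw [hxd]; exact hX.ne _ (cent_mem hξ)
  obtain ⟨q, hqd⟩ : ∃ q : ℝ → ℝ, q = fun ξ => Q (x ξ) (y ξ) (bc (x ξ) (y ξ) (z ξ)) := ⟨_, rfl⟩
  obtain ⟨w, hwd⟩ : ∃ w : ℝ → ℝ, w = fun ξ => Wc (x ξ) (y ξ) := ⟨_, rfl⟩
  have cq : ContinuousOn q (Icc x₁ x₂) := by
    rw [hqd]
    have cb : ContinuousOn (fun ξ => bc (x ξ) (y ξ) (z ξ)) (Icc x₁ x₂) := by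
      unfold bc
      exact ((((cx.sub (cx.pow 3)).add (continuousOn_const.mul cz)).sub
        (continuousOn_const.mul ((cy.pow 2).div cx hne))).div_const _)
    exact hQL.continuous.comp_continuousOn (cx.prodMk (cy.prodMk cb))
  have cw : ContinuousOn w (Icc x₁ x₂) := by
    rw [hwd]
    exact cW.comp_continuousOn (cx.prodMk cy)
  have hd' : ∀ ξ ∈ Icc x₁ x₂, HasDerivAt w (- e ξ - q ξ) ξ := by
    intro ξ hξ
    rw [hwd, hqd, hxd, hyd, hzd]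
    exact hd ξ hξ
  have cχ := hc.cont.continuousOn (s := Icc x₁ x₂)
  have cχ1 := hc.cont1.continuousOn (s := Icc x₁ x₂)
  have i1 : IntervalIntegrable (fun ξ => χ ξ * e ξ) volume x₁ x₂ :=
    (cχ.mul ce).intervalIntegrable_of_Icc hx
  have i2 : IntervalIntegrable (fun ξ => χ ξ * q ξ) volume x₁ x₂ :=
    (cχ.mul cq).intervalIntegrable_of_Icc hx
  have i3 : IntervalIntegrable (fun ξ => χ₁ ξ * w ξ) volume x₁ x₂ :=
    (cχ1.mul cw).intervalIntegrable_of_Icc hx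
  -- integration by parts
  have hF : ∫ ξ in x₁..x₂, (χ₁ ξ * w ξ + χ ξ * (- e ξ - q ξ)) = 0 := by
    have hi : IntervalIntegrable (fun ξ => χ₁ ξ * w ξ + χ ξ * (- e ξ - q ξ)) volume x₁ x₂ :=
      ((cχ1.mul cw).add (cχ.mul (ce.neg.sub cq))).intervalIntegrable_of_Icc hx
    have h0 := intervalIntegral.integral_eq_sub_of_hasDerivAt (f := fun ξ => χ ξ * w ξ)
      (f' := fun ξ => χ₁ ξ * w ξ + χ ξ * (- e ξ - q ξ)) (fun ξ hξ => by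
        rw [uIcc_of_le hx] at hξ
        exact (hc.d1 ξ).mul (hd' ξ hξ)) hi
    rw [h0]
    simp [hc.e1, hc.e2]
  have e1 : ∫ ξ in x₁..x₂, (χ₁ ξ * w ξ + χ ξ * (- e ξ - q ξ)) =
      (∫ ξ in x₁..x₂, χ₁ ξ * w ξ) - (∫ ξ in x₁..x₂, χ ξ * e ξ) -
        ∫ ξ in x₁..x₂, χ ξ * q ξ := by
    rw [← intervalIntegral.integral_sub i3 i1, ← intervalIntegral.integral_sub (i3.sub i1) i2]
    refine intervalIntegral.integral_congr fun ξ _ => ?_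
    ring
  rw [e1] at hF
  -- the bounds of the two integrals
  have b1 : -(M * 8) ≤ ∫ ξ in x₁..x₂, χ ξ * q ξ := by
    have h1 : ∫ ξ in x₁..x₂, -(M * (1 - ρ ξ)) ≤ ∫ ξ in x₁..x₂, χ ξ * q ξ := by
      refine intervalIntegral.integral_mono_on hx
        ((continuous_const.mul (continuous_const.sub cρ)).neg.intervalIntegrable _ _) i2
        fun ξ hξ => ?_
      have h2 := hR ξ hξ
      have h3 := hlow _ _ _ (ρ ξ) (hρ ξ).1 (hρ ξ).2 h2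
      have h4 : -(M * (1 - ρ ξ)) ≤ q ξ := by
        rw [hqd, hxd, hyd, hzd]
        exact h3
      have h5 := hc.b01 ξ
      have h6 : 0 ≤ M * (1 - ρ ξ) := mul_nonneg hM (by linarith [(hρ ξ).2])
      nlinarith
    rw [intervalIntegral.integral_neg, intervalIntegral.integral_const_mul] at h1
    have := mul_le_mul_of_nonneg_left hI hM
    linarith
  have b2 : ∫ ξ in x₁..x₂, χ₁ ξ * w ξ ≤ B * (2 * k) := by
    have h1 : ∫ ξ in x₁..x₂, χ₁ ξ * w ξ ≤ ∫ ξ in x₁..x₂, B * |χ₁ ξ| := by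
      refine intervalIntegral.integral_mono_on hx i3
        ((continuous_const.mul hc.cont1.abs).intervalIntegrable _ _) fun ξ hξ => ?_
      have h2 : |w ξ| ≤ B := by
        rw [hwd]
        refine hB' (x ξ, y ξ) ?_
        have hr := hR ξ hξ
        obtain ⟨r1, r2⟩ := hρ ξ
        have hρ0 : 0 < ρ ξ := by linarith
        have hρn : ‖(ρ ξ : ℂ)‖ = ρ ξ := by rw [norm_real, Real.norm_of_nonneg hρ0.le]
        have x1 := hr.le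
        have hle : ‖(ρ ξ : ℂ) * X (pt ξ (π / 2))‖ ^ 2 ≤ 1 := pow_le_one₀ (norm_nonneg _) x1
        rw [norm_mul, hρn] at x1
        have y4 : ρ ξ ^ 2 * ‖deriv X (pt ξ (π / 2))‖ ≤ 1 := by
          -- from the area inequality
          have har := hr.ar
          have hp : 0 < ‖(ρ ξ : ℂ) * X (pt ξ (π / 2))‖ ^ 2 := pow_pos (norm_pos_iff.2 hr.ne) 2
          have h3 := Real.one_sub_inv_le_log_of_pos hp
          have h4 := mul_le_mul_of_nonneg_left h3 hp.le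
          have h5 : ‖(ρ ξ : ℂ) * X (pt ξ (π / 2))‖ ^ 2 *
              (1 - (‖(ρ ξ : ℂ) * X (pt ξ (π / 2))‖ ^ 2)⁻¹) =
              ‖(ρ ξ : ℂ) * X (pt ξ (π / 2))‖ ^ 2 - 1 := by
            rw [mul_sub, mul_one, mul_inv_cancel₀ hp.ne']
          rw [h5] at h4
          have h6 : ‖(ρ ξ : ℂ) ^ 2 * deriv X (pt ξ (π / 2))‖ ^ 2 ≤ 1 := by
            nlinarith [sq_nonneg ‖(ρ ξ : ℂ) ^ 3 * bc (X (pt ξ (π / 2)))
              (deriv X (pt ξ (π / 2))) (deriv (deriv X) (pt ξ (π / 2)))‖]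
          rw [norm_mul, norm_pow, hρn] at h6
          nlinarith [mul_nonneg (sq_nonneg (ρ ξ)) (norm_nonneg (deriv X (pt ξ (π / 2))))]
        rw [mem_closedBall_zero_iff, Prod.norm_def, hxd, hyd]
        refine max_le ?_ ?_
        · simp only
          nlinarith [norm_nonneg (X (pt ξ (π / 2)))]
        · simp only
          have h3 : (1 / 9 : ℝ) ^ 2 ≤ ρ ξ ^ 2 := pow_le_pow_left₀ (by norm_num) r1 2
          nlinarith [norm_nonneg (deriv X (pt ξ (π / 2)))]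
      calc χ₁ ξ * w ξ ≤ |χ₁ ξ * w ξ| := le_abs_self _
        _ = |w ξ| * |χ₁ ξ| := by rw [abs_mul, mul_comm]
        _ ≤ B * |χ₁ ξ| := mul_le_mul_of_nonneg_right h2 (abs_nonneg _)
    rw [intervalIntegral.integral_const_mul] at h1
    exact h1.trans (mul_le_mul_of_nonneg_left hc.i1 hB0)
  linarith

end Pool.Agent.Helper84.CB
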