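import Pool.Agent.Helper84.CB.RegQ
set_option autoImplicit false
open Complex MeasureTheory Metric Set
open scoped Real ComplexConjugate

/-!
# The centre line in the coordinates `X`, `q`, `b`: the integrated inequality
-/

namespace Pool.Agent.Helper84.CB

open Pool.Agent.Helper39.Area Pool.Agent.Helper52.EK Pool.Agent.Helper69.EK3

/-- `- log t ≤ (1-t)(1+5t)/(2t(2+t))` -/
theorem log_pade {t : ℝ} (h0 : 0 < t) (h1 : t ≤ 1) :
    -Real.log t ≤ (1 - t) * (1 + 5 * t) / (2 * t * (2 + t)) := by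
  obtain ⟨F, hF⟩ : ∃ F : ℝ → ℝ, F = fun t => (1 - t) * (1 + 5 * t) / (2 * t * (2 + t)) +
    Real.log t := ⟨_, rfl⟩
  have hd : ∀ x : ℝ, 0 < x → HasDerivAt F (-(1 - x) ^ 3 / (x ^ 2 * (2 + x) ^ 2)) x := by
    intro x hx
    have a1 : HasDerivAt (fun t : ℝ => (1 - t) * (1 + 5 * t))
        (-1 * (1 + 5 * x) + (1 - x) * 5) x := by
      have b1 : HasDerivAt (fun t : ℝ => 1 - t) (-1) x := (hasDerivAt_id x).const_sub 1
      have b2 : HasDerivAt (fun t : ℝ => 1 + 5 * t) 5 x := by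
        simpa using ((hasDerivAt_id x).const_mul 5).const_add 1
      exact b1.mul b2
    have a2 : HasDerivAt (fun t : ℝ => 2 * t * (2 + t)) (2 * (2 + x) + 2 * x * 1) x := by
      have b1 : HasDerivAt (fun t : ℝ => 2 * t) 2 x := by
        simpa using (hasDerivAt_id x).const_mul 2
      have b2 : HasDerivAt (fun t : ℝ => 2 + t) 1 x := (hasDerivAt_id x).const_add 2
      exact b1.mul b2
    have hne : 2 * x * (2 + x) ≠ 0 := by positivity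
    have a3 := (a1.div a2 hne).add (Real.hasDerivAt_log hx.ne')
    rw [hF]
    refine a3.congr_deriv ?_
    have h2x : 2 + x ≠ 0 := by positivity
    field_simp
    ring
  have hanti : AntitoneOn F (Icc t 1) := by
    refine antitoneOn_of_deriv_nonpos (convex_Icc _ _) (fun x hx =>
      (hd x (lt_of_lt_of_le h0 hx.1)).continuousAt.continuousWithinAt) (fun x hx => ?_)
      (fun x hx => ?_)
    · rw [interior_Icc] at hx
      exact (hd x (h0.trans hx.1)).differentiableAt.differentiableWithinAt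
    · rw [interior_Icc] at hx
      rw [(hd x (h0.trans hx.1)).deriv]
      have : 0 ≤ (1 - x) ^ 3 := pow_nonneg (by linarith [hx.2]) 3
      have h3 : 0 < x ^ 2 * (2 + x) ^ 2 := by
        have := h0.trans hx.1
        positivity
      exact div_nonpos_of_nonpos_of_nonneg (by linarith) h3.le
  have h2 := hanti (left_mem_Icc.2 h1) (right_mem_Icc.2 h1) h1
  rw [hF] at h2
  simp only [Real.log_one] at h2
  norm_num at h2
  linarith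

theorem RegQ.pade {X q b : ℂ} (h : RegQ X q b) :
    2 * ‖X‖ ^ 2 * (2 + ‖X‖ ^ 2) * (‖q‖ ^ 2 + 2 * ‖b‖ ^ 2) ≤
      (1 - ‖X‖ ^ 2) * (1 + 5 * ‖X‖ ^ 2) := by
  have hp : 0 < ‖X‖ ^ 2 := pow_pos (norm_pos_iff.2 h.ne) 2
  have h1 := h.ar.trans (log_pade hp (pow_le_one₀ (norm_nonneg _) h.le))
  rw [le_div_iff₀ (by positivity)] at h1
  linarith

/-- the values of `Q` near the region -/
theorem Q_lowQ {Q : ℂ → ℂ → ℂ → ℝ} (hQ : ∀ X q b : ℂ, RegQ X q b → 0 ≤ Q X q b)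
    (hQL : LocallyLipschitz fun p : ℂ × ℂ × ℂ => Q p.1 p.2.1 p.2.2) :
    ∃ M : ℝ, 0 ≤ M ∧ ∀ (X q b : ℂ) (ρ : ℝ), 1 / 9 ≤ ρ → ρ ≤ 1 →
      RegQ ((ρ : ℂ) * X) ((ρ : ℂ) * q) ((ρ : ℂ) ^ 2 * b) → -(M * (1 - ρ)) ≤ Q X q b := by
  obtain ⟨K, hK⟩ := hQL.locallyLipschitzOn.exists_lipschitzOnWith_of_compact
    (s := closedBall (0 : ℂ × ℂ × ℂ) 324) (isCompact_closedBall _ _)
  refine ⟨K * 648, by positivity, fun X q b ρ h1 h2 hR => ?_⟩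
  have hρ0 : 0 < ρ := by linarith
  have hρn : ‖(ρ : ℂ)‖ = ρ := by rw [norm_real, Real.norm_of_nonneg hρ0.le]
  have x1 : ρ * ‖X‖ ≤ 1 := by
    have := hR.le
    rwa [norm_mul, hρn] at this
  have q1 : ρ * ‖q‖ ≤ 2 := by
    have := hR.q_le
    rwa [norm_mul, hρn] at this
  have b1 : ρ ^ 2 * ‖b‖ ≤ 4 := by
    have := hR.b_le
    rwa [norm_mul, norm_pow, hρn] at this
  have x2 : ‖X‖ ≤ 9 := by nlinarith [norm_nonneg X]
  have q2 : ‖q‖ ≤ 18 := by nlinarith [norm_nonneg q]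
  have b2 : ‖b‖ ≤ 324 := by
    have h3 : (1 / 9 : ℝ) ^ 2 ≤ ρ ^ 2 := pow_le_pow_left₀ (by norm_num) h1 2
    nlinarith [norm_nonneg b]
  have hd : (0:ℝ) ≤ 1 - ρ := by linarith
  have m1 : ((X, q, b) : ℂ × ℂ × ℂ) ∈ closedBall (0 : ℂ × ℂ × ℂ) 324 := by
    rw [mem_closedBall_zero_iff, Prod.norm_def, Prod.norm_def]
    exact max_le (by linarith) (max_le (by linarith) b2)
  have m2 : (((ρ : ℂ) * X, (ρ : ℂ) * q, (ρ : ℂ) ^ 2 * b) : ℂ × ℂ × ℂ) ∈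
      closedBall (0 : ℂ × ℂ × ℂ) 324 := by
    rw [mem_closedBall_zero_iff, Prod.norm_def, Prod.norm_def]
    refine max_le ?_ (max_le ?_ ?_)
    · simp only
      rw [norm_mul, hρn]
      linarith
    · simp only
      rw [norm_mul, hρn]
      linarith
    · simp only
      rw [norm_mul, norm_pow, hρn]
      linarith
  have hL := hK.dist_le_mul _ m1 _ m2
  have hdist : dist ((X, q, b) : ℂ × ℂ × ℂ)
      ((ρ : ℂ) * X, (ρ : ℂ) * q, (ρ : ℂ) ^ 2 * b) ≤ 648 * (1 - ρ) := by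
    rw [dist_eq_norm, Prod.norm_def, Prod.norm_def]
    refine max_le ?_ (max_le ?_ ?_)
    · simp only [Prod.fst_sub]
      have e : X - (ρ : ℂ) * X = ((1 - ρ : ℝ) : ℂ) * X := by push_cast; ring
      rw [e, norm_mul, norm_real, Real.norm_of_nonneg hd]
      nlinarith [norm_nonneg X]
    · simp only [Prod.snd_sub, Prod.fst_sub]
      have e : q - (ρ : ℂ) * q = ((1 - ρ : ℝ) : ℂ) * q := by
        push_cast
        ring
      rw [e, norm_mul, norm_real, Real.norm_of_nonneg hd]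
      nlinarith [norm_nonneg q]
    · simp only [Prod.snd_sub]
      have e : b - (ρ : ℂ) ^ 2 * b = ((1 - ρ : ℝ) : ℂ) * ((1 + ρ : ℝ) : ℂ) * b := by
        push_cast
        ring
      rw [e, norm_mul, norm_mul, norm_real, norm_real, Real.norm_of_nonneg hd,
        Real.norm_of_nonneg (by linarith)]
      have h3 : (1 - ρ) * (1 + ρ) ≤ (1 - ρ) * 2 := mul_le_mul_of_nonneg_left (by linarith) hd
      have h4 := mul_le_mul h3 b2 (norm_nonneg b) (by positivity)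
      linarith
  have hq := hQ _ _ _ hR
  have h5 : dist (Q X q b) (Q ((ρ : ℂ) * X) ((ρ : ℂ) * q) ((ρ : ℂ) ^ 2 * b)) ≤
      K * (648 * (1 - ρ)) := hL.trans (mul_le_mul_of_nonneg_left hdist K.coe_nonneg)
  rw [Real.dist_eq] at h5
  have h6 := (abs_le.1 h5).1
  linarith

/-- **the integrated inequality on the centre line, coordinates `X`, `q`, `b`** -/
theorem line_q {Q : ℂ → ℂ → ℂ → ℝ} (hQ : ∀ X q b : ℂ, RegQ X q b → 0 ≤ Q X q b)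
    (hQL : LocallyLipschitz fun p : ℂ × ℂ × ℂ => Q p.1 p.2.1 p.2.2)
    {Wc : ℂ → ℂ → ℝ} (cW : Continuous fun p : ℂ × ℂ => Wc p.1 p.2) {k : ℝ} (hk : 0 ≤ k) :
    ∃ C : ℝ, ∀ (l x₁ x₂ : ℝ) (χ χ₁ χ₂ : ℝ → ℝ) (X : ℂ → ℂ) (e : ℝ → ℝ),
      Cut k l x₁ x₂ χ χ₁ χ₂ → x₁ ≤ x₂ → NiceH X x₁ x₂ → CenQP X x₁ x₂ →
      ContinuousOn e (Icc x₁ x₂) →
      (∀ ξ ∈ Icc x₁ x₂, HasDerivAt (fun t : ℝ => Wc (X (pt t (π / 2)))
          (deriv X (pt t (π / 2)) / X (pt t (π / 2))))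
        (- e ξ - Q (X (pt ξ (π / 2))) (deriv X (pt ξ (π / 2)) / X (pt ξ (π / 2)))
          (bq (X (pt ξ (π / 2))) (deriv X (pt ξ (π / 2))) (deriv (deriv X) (pt ξ (π / 2))))) ξ) →
      ∫ ξ in x₁..x₂, χ ξ * e ξ ≤ C := by
  obtain ⟨M, hM, hlow⟩ := Q_lowQ hQ hQL
  obtain ⟨B, hB⟩ := (isCompact_closedBall (0 : ℂ × ℂ) 18).bddAbove_image cW.abs.continuousOn
  have hB' : ∀ Z ∈ closedBall (0 : ℂ × ℂ) 18, |Wc Z.1 Z.2| ≤ B :=
    fun Z hZ => hB (mem_image_of_mem _ hZ)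
  have hB0 : 0 ≤ B := (abs_nonneg _).trans (hB' 0 (by simp))
  refine ⟨M * 8 + B * (2 * k), fun l x₁ x₂ χ χ₁ χ₂ X e hc hx hX hP ce hd => ?_⟩
  obtain ⟨ρ, cρ, hρ, hI, hR⟩ := hP
  obtain ⟨x, hxd⟩ : ∃ x : ℝ → ℂ, x = fun ξ => X (pt ξ (π / 2)) := ⟨_, rfl⟩
  obtain ⟨y, hyd⟩ : ∃ y : ℝ → ℂ, y = fun ξ => deriv X (pt ξ (π / 2)) := ⟨_, rfl⟩
  obtain ⟨z, hzd⟩ : ∃ z : ℝ → ℂ, z = fun ξ => deriv (deriv X) (pt ξ (π / 2)) := ⟨_, rfl⟩
  have cx : ContinuousOn x (Icc x₁ x₂) := by rw [hxd]; exact contC hX.an.continuousOn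
  have cy : ContinuousOn y (Icc x₁ x₂) := by rw [hyd]; exact contC hX.an.deriv.continuousOn
  have cz : ContinuousOn z (Icc x₁ x₂) := by
    rw [hzd]; exact contC hX.an.deriv.deriv.continuousOn
  have hne : ∀ ξ ∈ Icc x₁ x₂, x ξ ≠ 0 := fun ξ hξ => by
    rw [hxd]; exact hX.ne _ (cent_mem hξ)
  obtain ⟨q, hqd⟩ : ∃ q : ℝ → ℝ, q = fun ξ => Q (x ξ) (y ξ / x ξ) (bq (x ξ) (y ξ) (z ξ)) :=
    ⟨_, rfl⟩
  obtain ⟨w, hwd⟩ : ∃ w : ℝ → ℝ, w = fun ξ => Wc (x ξ) (y ξ / x ξ) := ⟨_, rfl⟩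
  have cyx : ContinuousOn (fun ξ => y ξ / x ξ) (Icc x₁ x₂) := cy.div cx hne
  have cq : ContinuousOn q (Icc x₁ x₂) := by
    rw [hqd]
    have cb : ContinuousOn (fun ξ => bq (x ξ) (y ξ) (z ξ)) (Icc x₁ x₂) := by
      unfold bq
      exact ((((continuousOn_const.sub (cx.pow 2)).add (continuousOn_const.mul
        (cz.div cx hne))).sub (continuousOn_const.mul (cyx.pow 2))).div_const _)
    exact hQL.continuous.comp_continuousOn (cx.prodMk (cyx.prodMk cb))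
  have cw : ContinuousOn w (Icc x₁ x₂) := by
    rw [hwd]
    exact cW.comp_continuousOn (cx.prodMk cyx)
  have hd' : ∀ ξ ∈ Icc x₁ x₂, HasDerivAt w (- e ξ - q ξ) ξ := by
    intro ξ hξ
    rw [hwd, hqd, hxd, hyd, hzd]
    exact hd ξ hξ
  have cχ := hc.cont.continuousOn (s := Icc x₁ x₂)
  have cχ1 := hc.cont1.continuousOn (s := Icc x₁ x₂)
  have i1 : IntervalIntegrable (fun ξ => χ ξ * e ξ) volume x₁ x₂ :=
    (cχ.mul ce).intervalIntegrable_of_Icc hx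
  have i2 : IntervalIntegrable (fun ξ => χ ξ * q ξ) volume x₁ x₂ :=
    (cχ.mul cq).intervalIntegrable_of_Icc hx
  have i3 : IntervalIntegrable (fun ξ => χ₁ ξ * w ξ) volume x₁ x₂ :=
    (cχ1.mul cw).intervalIntegrable_of_Icc hx
  have hF : ∫ ξ in x₁..x₂, (χ₁ ξ * w ξ + χ ξ * (- e ξ - q ξ)) = 0 := by
    have hi : IntervalIntegrable (fun ξ => χ₁ ξ * w ξ + χ ξ * (- e ξ - q ξ)) volume x₁ x₂ :=
      ((cχ1.mul cw).add (cχ.mul (ce.neg.sub cq))).intervalIntegrable_of_Icc hx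
    have h0 := intervalIntegral.integral_eq_sub_of_hasDerivAt (f := fun ξ => χ ξ * w ξ)
      (f' := fun ξ => χ₁ ξ * w ξ + χ ξ * (- e ξ - q ξ)) (fun ξ hξ => by
        rw [uIcc_of_le hx] at hξ
        exact (hc.d1 ξ).mul (hd' ξ hξ)) hi
    rw [h0]
    simp [hc.e1, hc.e2]
  have e1 : ∫ ξ in x₁..x₂, (χ₁ ξ * w ξ + χ ξ * (- e ξ - q ξ)) =
      (∫ ξ in x₁..x₂, χ₁ ξ * w ξ) - (∫ ξ in x₁..x₂, χ ξ * e ξ) -
        ∫ ξ in x₁..x₂, χ ξ * q ξ := by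
    rw [← intervalIntegral.integral_sub i3 i1, ← intervalIntegral.integral_sub (i3.sub i1) i2]
    refine intervalIntegral.integral_congr fun ξ _ => ?_
    ring
  rw [e1] at hF
  have b1 : -(M * 8) ≤ ∫ ξ in x₁..x₂, χ ξ * q ξ := by
    have h1 : ∫ ξ in x₁..x₂, -(M * (1 - ρ ξ)) ≤ ∫ ξ in x₁..x₂, χ ξ * q ξ := by
      refine intervalIntegral.integral_mono_on hx
        ((continuous_const.mul (continuous_const.sub cρ)).neg.intervalIntegrable _ _) i2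
        fun ξ hξ => ?_
      have h2 := hR ξ hξ
      have h3 := hlow _ _ _ (ρ ξ) (hρ ξ).1 (hρ ξ).2 h2
      have h4 : -(M * (1 - ρ ξ)) ≤ q ξ := by
        rw [hqd, hxd, hyd, hzd]
        exact h3
      have h5 := hc.b01 ξ
      have h6 : 0 ≤ M * (1 - ρ ξ) := mul_nonneg hM (by linarith [(hρ ξ).2])
      nlinarith
    rw [intervalIntegral.integral_neg, intervalIntegral.integral_const_mul] at h1
    have := mul_le_mul_of_nonneg_left hI hM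
    linarith
  have b2 : ∫ ξ in x₁..x₂, χ₁ ξ * w ξ ≤ B * (2 * k) := by
    have h1 : ∫ ξ in x₁..x₂, χ₁ ξ * w ξ ≤ ∫ ξ in x₁..x₂, B * |χ₁ ξ| := by
      refine intervalIntegral.integral_mono_on hx i3
        ((continuous_const.mul hc.cont1.abs).intervalIntegrable _ _) fun ξ hξ => ?_
      have h2 : |w ξ| ≤ B := by
        rw [hwd]
        refine hB' (x ξ, y ξ / x ξ) ?_
        have hr := hR ξ hξ
        obtain ⟨r1, r2⟩ := hρ ξ
        have hρ0 : 0 < ρ ξ := by linarith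
        have hρn : ‖(ρ ξ : ℂ)‖ = ρ ξ := by rw [norm_real, Real.norm_of_nonneg hρ0.le]
        have x1 := hr.le
        have q1 := hr.q_le
        rw [norm_mul, hρn] at x1 q1
        rw [mem_closedBall_zero_iff, Prod.norm_def, hxd, hyd]
        refine max_le ?_ ?_
        · simp only
          nlinarith [norm_nonneg (X (pt ξ (π / 2)))]
        · simp only
          nlinarith [norm_nonneg (deriv X (pt ξ (π / 2)) / X (pt ξ (π / 2)))]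
      calc χ₁ ξ * w ξ ≤ |χ₁ ξ * w ξ| := le_abs_self _
        _ = |w ξ| * |χ₁ ξ| := by rw [abs_mul, mul_comm]
        _ ≤ B * |χ₁ ξ| := mul_le_mul_of_nonneg_right h2 (abs_nonneg _)
    rw [intervalIntegral.integral_const_mul] at h1
    exact h1.trans (mul_le_mul_of_nonneg_left hc.i1 hB0)
  linarith

/-- **The centre terms, functional form, coordinates `X`, `q`, `b`** -/
theorem cen_FQ {K : (ℂ → ℂ) → ℝ → ℝ} {Q : ℂ → ℂ → ℂ → ℝ} {Wc : ℂ → ℂ → ℝ}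
    (hQ : ∀ X q b : ℂ, RegQ X q b → 0 ≤ Q X q b)
    (hL : LocallyLipschitz fun p : ℂ × ℂ × ℂ => Q p.1 p.2.1 p.2.2)
    (cW : Continuous fun p : ℂ × ℂ => Wc p.1 p.2)
    (cK : ∀ (X : ℂ → ℂ) (x₁ x₂ : ℝ), NiceH X x₁ x₂ →
      ContinuousOn (fun ξ => K X ξ + K (mir X) ξ) (Icc x₁ x₂))
    (hd : ∀ (X : ℂ → ℂ) (x₁ x₂ : ℝ), NiceH X x₁ x₂ → ∀ ξ ∈ Icc x₁ x₂,
      HasDerivAt (fun t : ℝ => Wc (X (pt t (π / 2))) (deriv X (pt t (π / 2)) / X (pt t (π / 2))))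
        ((K X ξ + K (mir X) ξ) + Q (X (pt ξ (π / 2)))
          (deriv X (pt ξ (π / 2)) / X (pt ξ (π / 2)))
          (bq (X (pt ξ (π / 2))) (deriv X (pt ξ (π / 2))) (deriv (deriv X) (pt ξ (π / 2))))) ξ) :
    ∀ k : ℝ, 0 ≤ k → ∃ C : ℝ, ∀ (l x₁ x₂ : ℝ) (χ χ₁ χ₂ : ℝ → ℝ) (X : ℂ → ℂ),
      Cut k l x₁ x₂ χ χ₁ χ₂ → x₁ ≤ x₂ → NiceH X x₁ x₂ → CenQP X x₁ x₂ →
      ∫ ξ in x₁..x₂, χ ξ * (K X ξ + K (mir X) ξ) ≤ C := by
  intro k hk
  obtain ⟨C, hC⟩ := line_q hQ hL (Wc := fun X q => -Wc X q) cW.neg hk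
  refine ⟨C, fun l x₁ x₂ χ χ₁ χ₂ X hc hx hX hP => ?_⟩
  refine hC l x₁ x₂ χ χ₁ χ₂ X _ hc hx hX hP (cK X x₁ x₂ hX) fun ξ hξ => ?_
  exact (hd X x₁ x₂ hX ξ hξ).neg.congr_deriv (by ring)

/-- the linear term: from the class -/
theorem CenQP.re_le {X : ℂ → ℂ} {x₁ x₂ : ℝ} (h : CenQP X x₁ x₂) :
    ∃ δ : ℝ → ℝ, Continuous δ ∧ (∀ ξ ∈ Icc x₁ x₂, 0 ≤ δ ξ) ∧
      (∀ ξ ∈ Icc x₁ x₂, ‖X (pt ξ (π / 2))‖ ≤ 1 + δ ξ) ∧ ∫ ξ in x₁..x₂, δ ξ ≤ 72 := by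
  obtain ⟨ρ, cρ, hρ, hI, hR⟩ := h
  refine ⟨fun ξ => 9 * (1 - ρ ξ), by fun_prop, fun ξ _ => by have := (hρ ξ).2; linarith,
    fun ξ hξ => ?_, ?_⟩
  · have h3 := (hR ξ hξ).le
    obtain ⟨r1, r2⟩ := hρ ξ
    have hρ0 : 0 < ρ ξ := by linarith
    rw [norm_mul, norm_real, Real.norm_of_nonneg hρ0.le] at h3
    have h4 : ‖X (pt ξ (π / 2))‖ ≤ 9 := by nlinarith [norm_nonneg (X (pt ξ (π / 2)))]
    nlinarith [norm_nonneg (X (pt ξ (π / 2)))]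
  · rw [intervalIntegral.integral_const_mul]
    linarith

/-! ### first order centre terms -/

/-- the condition on the centre line, coordinates `X`, `q`, `b` -/
structure CenD (K : ℂ → ℂ → ℝ) (Q : ℂ → ℂ → ℂ → ℝ) (Wc : ℂ → ℂ → ℝ) : Prop where
  pos : ∀ X q b : ℂ, RegQ X q b → 0 ≤ Q X q b
  lip : LocallyLipschitz fun p : ℂ × ℂ × ℂ => Q p.1 p.2.1 p.2.2
  cW : Continuous fun p : ℂ × ℂ => Wc p.1 p.2
  hd : ∀ (x q : ℝ → ℂ) (b : ℂ) (ξ : ℝ), x ξ ≠ 0 → HasDerivAt x (x ξ * q ξ) ξ →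
    HasDerivAt q ((3 * b - 1 + x ξ ^ 2) / 2 - q ξ ^ 2 / 4) ξ →
    HasDerivAt (fun t : ℝ => Wc (x t) (q t))
      (-(K (x ξ) (x ξ * q ξ) + K (conj (x ξ)) (conj (x ξ * q ξ))) - Q (x ξ) (q ξ) b) ξ

/-- the derivative of `q` -/
theorem q_hd {x y : ℝ → ℂ} {z : ℂ} {ξ : ℝ} (h1 : HasDerivAt x (y ξ) ξ) (h2 : HasDerivAt y z ξ)
    (h0 : x ξ ≠ 0) : HasDerivAt (fun t => y t / x t)
      ((3 * bq (x ξ) (y ξ) z - 1 + x ξ ^ 2) / 2 - (y ξ / x ξ) ^ 2 / 4) ξ := by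
  refine (h2.div h1 h0).congr_deriv ?_
  unfold bq
  field_simp
  ring

/-- the integrated inequality with the area inequality on the centre line -/
theorem strip_q {k₂ lam : ℝ} (hk₂ : lam ≤ k₂) {T : ℂ → ℂ → ℝ → ℝ → ℝ}
    {K : ℂ → ℂ → ℝ} (cK : ContinuousOn (fun p : ℂ × ℂ => K p.1 p.2) {p | p.1 ≠ 0})
    {adm : (ℂ → ℂ) → ℝ → ℝ → Prop} (hc : CoreI k₂ lam T K adm)
    {Q : ℂ → ℂ → ℂ → ℝ} {Wc : ℂ → ℂ → ℝ} (hQ : CenD K Q Wc) :
    StripIneq3 lam k₂ T (fun X x₁ x₂ => adm X x₁ x₂ ∧ CenQP X x₁ x₂) := by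
  obtain ⟨k, C, hk, hC⟩ := hc
  obtain ⟨C', hC'⟩ := line_q hQ.pos hQ.lip hQ.cW hk
  refine ⟨|C| + |C'| + (k₂ - lam) * (π * 72), fun X x₁ x₂ l hl hx hX hA => ?_⟩
  obtain ⟨hA, hP⟩ := hA
  obtain ⟨χ, χ₁, χ₂, hc, hmain⟩ := hC X x₁ x₂ l hl hx hX hA
  have hx12 : x₁ ≤ x₂ := by linarith
  have hXh := NiceX.half hX
  have cKe : ContinuousOn (fun ξ => K (X (pt ξ (π / 2))) (deriv X (pt ξ (π / 2))) +
      K (conj (X (pt ξ (π / 2)))) (conj (deriv X (pt ξ (π / 2))))) (Icc x₁ x₂) := by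
    refine (CC_K cK hXh).add ?_
    exact cK.comp ((Complex.continuous_conj.comp_continuousOn
      (contC hXh.an.continuousOn)).prodMk (Complex.continuous_conj.comp_continuousOn
      (contC hXh.an.deriv.continuousOn)))
      fun ξ hξ => (map_ne_zero (starRingEnd ℂ)).2 (hXh.ne _ (cent_mem hξ))
  have h1 := hC' l x₁ x₂ χ χ₁ χ₂ X _ hc hx12 hXh hP cKe (by
    intro ξ hξ
    have n0 := hXh.ne _ (cent_mem hξ)
    have d1 := line_hd (hXh.an _ (cent_mem hξ))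
    have d2 := line_hd (hXh.an _ (cent_mem hξ)).deriv
    have e : X (pt ξ (π / 2)) * (deriv X (pt ξ (π / 2)) / X (pt ξ (π / 2))) =
      deriv X (pt ξ (π / 2)) := by
      field_simp
    have h := hQ.hd (fun t => X (pt t (π / 2)))
      (fun t => deriv X (pt t (π / 2)) / X (pt t (π / 2)))
      (bq (X (pt ξ (π / 2))) (deriv X (pt ξ (π / 2))) (deriv (deriv X) (pt ξ (π / 2)))) ξ n0
      (by
        rw [e]
        exact d1) (q_hd d1 d2 n0)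
    rw [e] at h
    exact h)
  obtain ⟨δ, cδ, δ0, hδ, hI⟩ := hP.re_le
  have h2 := line_lin hc hx12 hXh cδ δ0 fun ξ hξ => (re_le_norm _).trans (hδ ξ hξ)
  have hE0' : 0 ≤ II x₁ x₂ (fun ξ η => ‖X (pt ξ η) - 1‖ ^ 2) := by
    rw [← En_add hx12 hX]
    exact add_nonneg (En_nonneg hx12) (En_nonneg hx12)
  obtain ⟨F, hF⟩ : ∃ F, F = II x₁ x₂ (fun ξ η => ‖X (pt ξ η) - 1‖ ^ 2) / l := ⟨_, rfl⟩
  have hF0 : 0 ≤ F := by
    rw [hF]
    exact div_nonneg hE0' (by linarith)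
  rw [← hF] at hmain ⊢
  have a2 : C ≤ |C| := le_abs_self C
  have a3 : C' ≤ |C'| := le_abs_self C'
  have hkl : 0 ≤ k₂ - lam := by linarith
  have a4 : (k₂ - lam) * (π * ∫ ξ in x₁..x₂, χ ξ * (1 - (X (pt ξ (π / 2))).re)) ≤
      (k₂ - lam) * (π * ((∫ ξ in x₁..x₂, (1 - (X (pt ξ (π / 2))).re)) + 72)) := by
    refine mul_le_mul_of_nonneg_left (mul_le_mul_of_nonneg_left ?_ Real.pi_pos.le) hkl
    linarith
  have a5 : (k₂ - lam) * (π * ((∫ ξ in x₁..x₂, (1 - (X (pt ξ (π / 2))).re)) + 72)) =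
      (k₂ - lam) * (π * ∫ ξ in x₁..x₂, (1 - (X (pt ξ (π / 2))).re)) +
        (k₂ - lam) * (π * 72) := by ring
  have a6 : C * (1 + F) ≤ |C| * (1 + F) := mul_le_mul_of_nonneg_right a2 (by linarith)
  have n1 : 0 ≤ |C'| * F := mul_nonneg (abs_nonneg _) hF0
  have n3 : 0 ≤ (k₂ - lam) * (π * 72) * F :=
    mul_nonneg (mul_nonneg hkl (by positivity)) hF0
  have a7 : (|C| + |C'| + (k₂ - lam) * (π * 72)) * (1 + F) =
      |C| * (1 + F) + |C'| + (k₂ - lam) * (π * 72) +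
        |C'| * F + (k₂ - lam) * (π * 72) * F := by ring
  rw [a7]
  linarith

/-- **The bound for one target with the area inequality on the centre line** -/
theorem K_q {lam k₂ κ L : ℝ} {G : ℂ → ℂ} (hG : GLip G L) {K : ℂ → ℂ → ℝ}
    (cK : ContinuousOn (fun p : ℂ × ℂ => K p.1 p.2) {p | p.1 ≠ 0})
    {adm : (ℂ → ℂ) → ℝ → ℝ → Prop}
    (hadm : ∀ (β : ℂ → ℂ) (R a : ℝ), ExtR β R → 0 < a → a < 1 → Real.log (tau a) + 1 ≤ -1 →
      adm (Xf β a) (Real.log (tau a) + 1) (-1))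
    (hc : CoreI k₂ lam (TG G) K adm)
    {Q : ℂ → ℂ → ℂ → ℝ} {Wc : ℂ → ℂ → ℝ} (hQ : CenD K Q Wc) (h0 : 0 ≤ lam) (h1 : lam ≤ k₂)
    (hκ : k₂ < 2 * κ) : ∃ C a₀ : ℝ, a₀ < 1 ∧ ∀ (β : ℂ → ℂ) (R a : ℝ), ExtR β R → a₀ < a → a < 1 →
      Kf (wf G β) 1 (-1) (Real.log a) ≤ κ * Real.log (‖N β a‖ / (1 - a ^ 2)) + C :=
  K_one3 hG (adm := fun X x₁ x₂ => adm X x₁ x₂ ∧ CenQP X x₁ x₂)
    (fun β R a h ha ha1 hx => ⟨hadm β R a h ha ha1 hx, cenQP_Xf h ha ha1 hx⟩)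
    (fun _ hδ => Pool.Agent.Helper79.EK3.centre_line hδ) (strip_q h1 cK hc hQ) h0 h1 hκ

end Pool.Agent.Helper84.CB
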