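import Pool.Agent.Helper84.CB.Fun
import Pool.Agent.Helper20.Kraus.Strip2
set_option autoImplicit false
open Complex MeasureTheory Metric Set
open scoped Real ComplexConjugate

/-!
# The centre line in the coordinates `X`, `q = X'/X`, `b`: the region and the class
-/

namespace Pool.Agent.Helper84.CB

open Pool.Agent.Helper39.Area Pool.Agent.Helper52.EK Pool.Agent.Helper69.EK3

/-- the coefficient `b` -/
noncomputable def bq (X Y Z : ℂ) : ℂ := (1 - X ^ 2 + 2 * (Z / X) - 3 / 2 * (Y / X) ^ 2) / 3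

/-- the region of `(X, q, b)` on the centre line -/
structure RegQ (X q b : ℂ) : Prop where
  ne : X ≠ 0
  le : ‖X‖ ≤ 1
  ar : ‖q‖ ^ 2 + 2 * ‖b‖ ^ 2 ≤ -Real.log (‖X‖ ^ 2)
  b1 : ‖q + 2 * X‖ ≤ 2
  b2 : ‖q - 2 * X‖ ≤ 2
  kr : ‖b - X ^ 2 - q ^ 2 / 2‖ ≤ 1

/-- the class: the scaled values lie in the region -/
def CenQP (X : ℂ → ℂ) (x₁ x₂ : ℝ) : Prop :=
  ∃ ρ : ℝ → ℝ, Continuous ρ ∧ (∀ ξ, 1 / 9 ≤ ρ ξ ∧ ρ ξ ≤ 1) ∧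
    ∫ ξ in x₁..x₂, (1 - ρ ξ) ≤ 8 ∧ ∀ ξ ∈ Icc x₁ x₂,
      RegQ ((ρ ξ : ℂ) * X (pt ξ (π / 2)))
        ((ρ ξ : ℂ) * (deriv X (pt ξ (π / 2)) / X (pt ξ (π / 2))))
        ((ρ ξ : ℂ) ^ 2 * bq (X (pt ξ (π / 2))) (deriv X (pt ξ (π / 2)))
          (deriv (deriv X) (pt ξ (π / 2))))

theorem RegQ.of_C {X Y Z : ℂ} {ρ : ℝ} (hρ : 0 < ρ) (hρ1 : ρ ≤ 1) (hX : X ≠ 0)
    (h : RegC ((ρ : ℂ) * X) ((ρ : ℂ) ^ 2 * Y) ((ρ : ℂ) ^ 3 * bc X Y Z))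
    (hk : ‖Pool.Agent.Helper69.EK7.tX X Y Z 1 0‖ ≤ 6) :
    RegQ ((ρ : ℂ) * X) ((ρ : ℂ) * (Y / X)) ((ρ : ℂ) ^ 2 * bq X Y Z) := by
  have hc : (ρ : ℂ) ≠ 0 := by exact_mod_cast hρ.ne'
  have hn : 0 < ‖(ρ : ℂ) * X‖ := norm_pos_iff.2 h.ne
  have eY : (ρ : ℂ) ^ 2 * Y = ((ρ : ℂ) * X) * ((ρ : ℂ) * (Y / X)) := by
    field_simp
  have eb : (ρ : ℂ) ^ 3 * bc X Y Z = ((ρ : ℂ) * X) * ((ρ : ℂ) ^ 2 * bq X Y Z) := by
    unfold bc bq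
    field_simp
  refine ⟨h.ne, h.le, ?_, ?_, ?_, ?_⟩
  · have h1 := h.ar
    rw [eY, eb, norm_mul ((ρ : ℂ) * X), norm_mul ((ρ : ℂ) * X)] at h1
    have h2 : 0 < ‖(ρ : ℂ) * X‖ ^ 2 := pow_pos hn 2
    refine le_of_mul_le_mul_left (le_trans (le_of_eq ?_) (h1.trans (le_of_eq ?_))) h2
    · ring
    · ring
  · have h1 := h.b1
    have e : (ρ : ℂ) ^ 2 * Y + 2 * ((ρ : ℂ) * X) ^ 2 =
        ((ρ : ℂ) * X) * ((ρ : ℂ) * (Y / X) + 2 * ((ρ : ℂ) * X)) := by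
      rw [eY]
      ring
    rw [e, norm_mul ((ρ : ℂ) * X)] at h1
    refine le_of_mul_le_mul_left ?_ hn
    linarith
  · have h1 := h.b2
    have e : (ρ : ℂ) ^ 2 * Y - 2 * ((ρ : ℂ) * X) ^ 2 =
        ((ρ : ℂ) * X) * ((ρ : ℂ) * (Y / X) - 2 * ((ρ : ℂ) * X)) := by
      rw [eY]
      ring
    rw [e, norm_mul ((ρ : ℂ) * X)] at h1
    refine le_of_mul_le_mul_left ?_ hn
    linarith
  · have e1 : Pool.Agent.Helper69.EK7.tX X Y Z 1 0 = 6 * (bq X Y Z - X ^ 2 - (Y / X) ^ 2 / 2) := by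
      unfold Pool.Agent.Helper69.EK7.tX bq e0
      push_cast
      linear_combination -4 * (1 / 2 - 2 * X ^ 2 + Z / X - 3 / 2 * (Y / X) ^ 2) * I_sq
    rw [e1, norm_mul] at hk
    have n6 : ‖(6:ℂ)‖ = 6 := by simp
    rw [n6] at hk
    have e2 : (ρ : ℂ) ^ 2 * bq X Y Z - ((ρ : ℂ) * X) ^ 2 - ((ρ : ℂ) * (Y / X)) ^ 2 / 2 =
        (ρ : ℂ) ^ 2 * (bq X Y Z - X ^ 2 - (Y / X) ^ 2 / 2) := by ring
    rw [e2, norm_mul, norm_pow, norm_real, Real.norm_of_nonneg hρ.le]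
    have h1 : ρ ^ 2 ≤ 1 := pow_le_one₀ hρ.le hρ1
    nlinarith [norm_nonneg (bq X Y Z - X ^ 2 - (Y / X) ^ 2 / 2)]

/-- **the class for the functions `Xf`** -/
theorem cenQP_Xf {β : ℂ → ℂ} {R a : ℝ} (h : ExtR β R) (ha : 0 < a) (ha1 : a < 1)
    (hx : Real.log (tau a) + 1 ≤ -1) : CenQP (Xf β a) (Real.log (tau a) + 1) (-1) := by
  obtain ⟨ρ, cρ, hρ, hI, hR⟩ := cenP_Xf h ha ha1 hx
  refine ⟨ρ, cρ, hρ, hI, fun ξ hξ => ?_⟩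
  have hρ0 : 0 < ρ ξ := by linarith [(hρ ξ).1]
  have hr := hR ξ hξ
  have hX : Xf β a (pt ξ (π / 2)) ≠ 0 := by
    intro h0
    exact hr.ne (by rw [h0, mul_zero])
  refine RegQ.of_C hρ0 (hρ ξ).2 hX hr ?_
  have hk := Pool.Agent.Helper20.Kraus2.kraus_strip h ha ha1 (ξ := ξ) (η := π / 2)
    (by linarith [hξ.1]) (by linarith [hξ.2]) (by positivity) (by linarith [Real.pi_pos])
  rw [Real.sin_pi_div_two, Real.cos_pi_div_two] at hk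
  exact hk

/-! ### consequences of the region -/

theorem RegQ.q_le {X q b : ℂ} (h : RegQ X q b) : ‖q‖ ≤ 2 := by
  have e : q = (1 / 2 : ℂ) * ((q + 2 * X) + (q - 2 * X)) := by ring
  rw [e, norm_mul]
  have h1 := norm_add_le (q + 2 * X) (q - 2 * X)
  have n2 : ‖(1 / 2 : ℂ)‖ = 1 / 2 := by simp
  rw [n2]
  linarith [h.b1, h.b2]

theorem RegQ.b_le {X q b : ℂ} (h : RegQ X q b) : ‖b‖ ≤ 4 := by
  have e : b = (b - X ^ 2 - q ^ 2 / 2) + (X ^ 2 + q ^ 2 / 2) := by ring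
  rw [e]
  have h1 := norm_add_le (b - X ^ 2 - q ^ 2 / 2) (X ^ 2 + q ^ 2 / 2)
  have h2 := norm_add_le (X ^ 2) (q ^ 2 / 2)
  rw [norm_pow, norm_div, norm_pow] at h2
  have n2 : ‖(2 : ℂ)‖ = 2 := by simp
  rw [n2] at h2
  have h3 : ‖X‖ ^ 2 ≤ 1 := pow_le_one₀ (norm_nonneg _) h.le
  have h4 : ‖q‖ ^ 2 ≤ 2 ^ 2 := pow_le_pow_left₀ (norm_nonneg _) h.q_le 2
  linarith [h.kr]

/-- `- log t ≤ (1/t - t)/2` -/
theorem RegQ.two {X q b : ℂ} (h : RegQ X q b) :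
    2 * ‖X‖ ^ 2 * (‖q‖ ^ 2 + 2 * ‖b‖ ^ 2) ≤ 1 - ‖X‖ ^ 4 := by
  have hp : 0 < ‖X‖ ^ 2 := pow_pos (norm_pos_iff.2 h.ne) 2
  obtain ⟨t, ht⟩ : ∃ t, t = ‖X‖ ^ 2 := ⟨_, rfl⟩
  have h4 : ‖X‖ ^ 4 = t ^ 2 := by rw [ht]; ring
  have ht1 : t ≤ 1 := by rw [ht]; exact pow_le_one₀ (norm_nonneg _) h.le
  have har := h.ar
  rw [h4, ← ht]
  rw [← ht] at hp har
  obtain ⟨s, hs⟩ : ∃ s, s = -Real.log t := ⟨_, rfl⟩
  have hs0 : 0 ≤ s := by rw [hs]; have := Real.log_nonpos hp.le ht1; linarith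
  have hts : t = Real.exp (-s) := by rw [hs, neg_neg, Real.exp_log hp]
  have h5 := Real.self_le_sinh_iff.2 hs0
  rw [Real.sinh_eq] at h5
  have h6 : Real.exp s * t = 1 := by rw [hts, ← Real.exp_add]; simp
  rw [← hs] at har
  rw [← hts] at h5
  have h8 := mul_le_mul_of_nonneg_left (har.trans h5) hp.le
  have h9 : t * ((Real.exp s - t) / 2) = (1 - t ^ 2) / 2 := by
    linear_combination (1 / 2) * h6
  rw [h9] at h8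
  linarith

end Pool.Agent.Helper84.CB
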