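import Pool.Agent.Helper84.CB.Line
set_option autoImplicit false
open Complex MeasureTheory Metric Set
open scoped Real ComplexConjugate

/-!
# The integrated inequality with the area inequality on the centre line
-/

namespace Pool.Agent.Helper84.CB

open Pool.Agent.Helper39.Area Pool.Agent.Helper52.EK Pool.Agent.Helper69.EK3

/-- the integrated inequality with the centre line terms -/
def CoreI (k₂ lam : ℝ) (T : ℂ → ℂ → ℝ → ℝ → ℝ) (K : ℂ → ℂ → ℝ)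
    (adm : (ℂ → ℂ) → ℝ → ℝ → Prop) : Prop :=
  ∃ k C : ℝ, 0 ≤ k ∧ ∀ (X : ℂ → ℂ) (x₁ x₂ l : ℝ), 1 ≤ l → x₁ + l ≤ x₂ - l → NiceX X x₁ x₂ →
    adm X x₁ x₂ → ∃ χ χ₁ χ₂ : ℝ → ℝ, Cut k l x₁ x₂ χ χ₁ χ₂ ∧
      II (x₁ + l) (x₂ - l)
        (fun ξ η => T (X (pt ξ η)) (deriv X (pt ξ η)) (Real.sin η) (Real.cos η)) ≤
      lam * II x₁ x₂ (fun ξ η => ‖X (pt ξ η) - 1‖ ^ 2) +
        (k₂ - lam) * (π * ∫ ξ in x₁..x₂, χ ξ * (1 - (X (pt ξ (π / 2))).re)) +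
        (∫ ξ in x₁..x₂, χ ξ * (K (X (pt ξ (π / 2))) (deriv X (pt ξ (π / 2))) +
          K (conj (X (pt ξ (π / 2)))) (conj (deriv X (pt ξ (π / 2)))))) +
        C * (1 + II x₁ x₂ (fun ξ η => ‖X (pt ξ η) - 1‖ ^ 2) / l)

/-- the condition on the centre line: `Q` is nonnegative on the region and equals the centre term
up to a derivative along the line -/
structure CenQ (K : ℂ → ℂ → ℝ) (Q : ℂ → ℂ → ℂ → ℝ) (Wc : ℂ → ℂ → ℝ) : Prop where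
  pos : ∀ X Y b : ℂ, RegC X Y b → 0 ≤ Q X Y b
  lip : LocallyLipschitz fun p : ℂ × ℂ × ℂ => Q p.1 p.2.1 p.2.2
  cW : Continuous fun p : ℂ × ℂ => Wc p.1 p.2
  hd : ∀ (x y : ℝ → ℂ) (z : ℂ) (ξ : ℝ), HasDerivAt x (y ξ) ξ → HasDerivAt y z ξ → x ξ ≠ 0 →
    HasDerivAt (fun t : ℝ => Wc (x t) (y t))
      (-(K (x ξ) (y ξ) + K (conj (x ξ)) (conj (y ξ))) - Q (x ξ) (y ξ) (bc (x ξ) (y ξ) z)) ξ

theorem hasDerivAt_pt (ξ : ℝ) : HasDerivAt (fun t : ℝ => pt t (π / 2)) 1 ξ := by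
  have h := (Complex.ofRealCLM.hasDerivAt (x := ξ)).add_const (((π / 2 : ℝ) : ℂ) * I)
  exact h.congr_deriv (by simp)

theorem line_hd {F : ℂ → ℂ} {ξ : ℝ} (hF : AnalyticAt ℂ F (pt ξ (π / 2))) :
    HasDerivAt (fun t : ℝ => F (pt t (π / 2))) (deriv F (pt ξ (π / 2))) ξ := by
  have h1 := (hF.differentiableAt.hasDerivAt).comp_of_eq ξ (hasDerivAt_pt ξ) rfl
  exact h1.congr_deriv (mul_one _)

/-- the integrated inequality with the area inequality on the centre line -/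
theorem strip_c {k₂ lam : ℝ} (hk₂ : lam ≤ k₂) {T : ℂ → ℂ → ℝ → ℝ → ℝ}
    {K : ℂ → ℂ → ℝ} (cK : ContinuousOn (fun p : ℂ × ℂ => K p.1 p.2) {p | p.1 ≠ 0})
    {adm : (ℂ → ℂ) → ℝ → ℝ → Prop} (hc : CoreI k₂ lam T K adm)
    {Q : ℂ → ℂ → ℂ → ℝ} {Wc : ℂ → ℂ → ℝ} (hQ : CenQ K Q Wc) :
    StripIneq3 lam k₂ T (fun X x₁ x₂ => adm X x₁ x₂ ∧ CenP X x₁ x₂) := by
  obtain ⟨k, C, hk, hC⟩ := hc
  obtain ⟨C', hC'⟩ := line_c hQ.pos hQ.lip hQ.cW hk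
  refine ⟨|C| + |C'| + (k₂ - lam) * (π * 72), fun X x₁ x₂ l hl hx hX hA => ?_⟩
  obtain ⟨hA, hP⟩ := hA
  obtain ⟨χ, χ₁, χ₂, hc, hmain⟩ := hC X x₁ x₂ l hl hx hX hA
  have hx12 : x₁ ≤ x₂ := by linarith
  have hXh := NiceX.half hX
  -- the centre terms
  have cKe : ContinuousOn (fun ξ => K (X (pt ξ (π / 2))) (deriv X (pt ξ (π / 2))) +
      K (conj (X (pt ξ (π / 2)))) (conj (deriv X (pt ξ (π / 2))))) (Icc x₁ x₂) := by
    refine (CC_K cK hXh).add ?_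
    exact cK.comp ((Complex.continuous_conj.comp_continuousOn
      (contC hXh.an.continuousOn)).prodMk (Complex.continuous_conj.comp_continuousOn
      (contC hXh.an.deriv.continuousOn)))
      fun ξ hξ => (map_ne_zero (starRingEnd ℂ)).2 (hXh.ne _ (cent_mem hξ))
  have h1 := hC' l x₁ x₂ χ χ₁ χ₂ X _ hc hx12 hXh hP cKe (by
    intro ξ hξ
    exact hQ.hd (fun t => X (pt t (π / 2))) (fun t => deriv X (pt t (π / 2)))
      (deriv (deriv X) (pt ξ (π / 2))) ξ (line_hd (hXh.an _ (cent_mem hξ)))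
      (line_hd (hXh.an _ (cent_mem hξ)).deriv) (hXh.ne _ (cent_mem hξ)))
  -- the linear term
  obtain ⟨ρ, cρ, hρ, hI, hR⟩ := hP
  have h2 := line_lin hc hx12 hXh (δ := fun ξ => 9 * (1 - ρ ξ)) (by fun_prop)
    (fun ξ _ => by have := (hρ ξ).2; linarith) (by
      intro ξ hξ
      have h3 := (hR ξ hξ).le
      obtain ⟨r1, r2⟩ := hρ ξ
      have hρ0 : 0 < ρ ξ := by linarith
      rw [norm_mul, norm_real, Real.norm_of_nonneg hρ0.le] at h3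
      have h4 : ‖X (pt ξ (π / 2))‖ ≤ 9 := by nlinarith [norm_nonneg (X (pt ξ (π / 2)))]
      have h5 : (X (pt ξ (π / 2))).re ≤ ‖X (pt ξ (π / 2))‖ := re_le_norm _
      nlinarith [norm_nonneg (X (pt ξ (π / 2)))])
  rw [intervalIntegral.integral_const_mul] at h2
  have hE0' : 0 ≤ II x₁ x₂ (fun ξ η => ‖X (pt ξ η) - 1‖ ^ 2) := by
    rw [← En_add hx12 hX]
    exact add_nonneg (En_nonneg hx12) (En_nonneg hx12)
  obtain ⟨F, hF⟩ : ∃ F, F = II x₁ x₂ (fun ξ η => ‖X (pt ξ η) - 1‖ ^ 2) / l := ⟨_, rfl⟩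
  have hF0 : 0 ≤ F := by
    rw [hF]
    exact div_nonneg hE0' (by linarith)
  rw [← hF] at hmain ⊢
  have a2 : C ≤ |C| := le_abs_self C
  have a3 : C' ≤ |C'| := le_abs_self C'
  have hkl : 0 ≤ k₂ - lam := by linarith
  have a4 : (k₂ - lam) * (π * ∫ ξ in x₁..x₂, χ ξ * (1 - (X (pt ξ (π / 2))).re)) ≤
      (k₂ - lam) * (π * ((∫ ξ in x₁..x₂, (1 - (X (pt ξ (π / 2))).re)) + 72)) := by
    refine mul_le_mul_of_nonneg_left (mul_le_mul_of_nonneg_left ?_ Real.pi_pos.le) hkl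
    linarith
  have a5 : (k₂ - lam) * (π * ((∫ ξ in x₁..x₂, (1 - (X (pt ξ (π / 2))).re)) + 72)) =
      (k₂ - lam) * (π * ∫ ξ in x₁..x₂, (1 - (X (pt ξ (π / 2))).re)) +
        (k₂ - lam) * (π * 72) := by ring
  have a6 : C * (1 + F) ≤ |C| * (1 + F) := mul_le_mul_of_nonneg_right a2 (by linarith)
  have n1 : 0 ≤ |C'| * F := mul_nonneg (abs_nonneg _) hF0
  have n3 : 0 ≤ (k₂ - lam) * (π * 72) * F :=
    mul_nonneg (mul_nonneg hkl (by positivity)) hF0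
  have a7 : (|C| + |C'| + (k₂ - lam) * (π * 72)) * (1 + F) =
      |C| * (1 + F) + |C'| + (k₂ - lam) * (π * 72) +
        |C'| * F + (k₂ - lam) * (π * 72) * F := by ring
  rw [a7]
  linarith

/-- **The bound for one target with the area inequality on the centre line** -/
theorem K_c {lam k₂ κ L : ℝ} {G : ℂ → ℂ} (hG : GLip G L) {K : ℂ → ℂ → ℝ}
    (cK : ContinuousOn (fun p : ℂ × ℂ => K p.1 p.2) {p | p.1 ≠ 0})
    {adm : (ℂ → ℂ) → ℝ → ℝ → Prop}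
    (hadm : ∀ (β : ℂ → ℂ) (R a : ℝ), ExtR β R → 0 < a → a < 1 → Real.log (tau a) + 1 ≤ -1 →
      adm (Xf β a) (Real.log (tau a) + 1) (-1))
    (hc : CoreI k₂ lam (TG G) K adm)
    {Q : ℂ → ℂ → ℂ → ℝ} {Wc : ℂ → ℂ → ℝ} (hQ : CenQ K Q Wc) (h0 : 0 ≤ lam) (h1 : lam ≤ k₂)
    (hκ : k₂ < 2 * κ) : ∃ C a₀ : ℝ, a₀ < 1 ∧ ∀ (β : ℂ → ℂ) (R a : ℝ), ExtR β R → a₀ < a → a < 1 →
      Kf (wf G β) 1 (-1) (Real.log a) ≤ κ * Real.log (‖N β a‖ / (1 - a ^ 2)) + C :=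
  K_one3 hG (adm := fun X x₁ x₂ => adm X x₁ x₂ ∧ CenP X x₁ x₂)
    (fun β R a h ha ha1 hx => ⟨hadm β R a h ha ha1 hx, cenP_Xf h ha ha1 hx⟩)
    (fun _ hδ => Pool.Agent.Helper79.EK3.centre_line hδ) (strip_c h1 cK hc hQ) h0 h1 hκ

/-- the polynomial region `|Y|² + 2 |b|² ≤ (1 - |X|⁴)/2` -/
theorem RegC.two {X Y b : ℂ} (h : RegC X Y b) :
    ‖Y‖ ^ 2 + 2 * ‖b‖ ^ 2 ≤ (1 - ‖X‖ ^ 4) / 2 := by
  refine h.ar.trans ?_
  have hp : 0 < ‖X‖ ^ 2 := pow_pos (norm_pos_iff.2 h.ne) 2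
  obtain ⟨t, ht⟩ : ∃ t, t = ‖X‖ ^ 2 := ⟨_, rfl⟩
  have h4 : ‖X‖ ^ 4 = t ^ 2 := by rw [ht]; ring
  have ht1 : t ≤ 1 := by rw [ht]; exact pow_le_one₀ (norm_nonneg _) h.le
  rw [h4, ← ht]
  rw [← ht] at hp
  obtain ⟨s, hs⟩ : ∃ s, s = -Real.log t := ⟨_, rfl⟩
  have hs0 : 0 ≤ s := by rw [hs]; have := Real.log_nonpos hp.le ht1; linarith
  have hts : t = Real.exp (-s) := by rw [hs, neg_neg, Real.exp_log hp]
  have h5 := Real.self_le_sinh_iff.2 hs0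
  rw [Real.sinh_eq] at h5
  have h6 : Real.exp s * t = 1 := by rw [hts, ← Real.exp_add]; simp
  have h7 : Real.log t = -s := by rw [hs]; ring
  rw [h7]
  rw [← hts] at h5
  have h8 := mul_le_mul_of_nonneg_left h5 hp.le
  have h9 : t * ((Real.exp s - t) / 2) = (1 - t ^ 2) / 2 := by
    linear_combination (1 / 2) * h6
  rw [h9] at h8
  linarith

end Pool.Agent.Helper84.CB
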